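import Pool.Agent.Helper99.EX.TruncA
import Pool.Agent.Helper22.AE.G5
import Pool.Agent.Helper22.LP.Unif

/-!
# EX, block T (the truncated formula), part C: comparison of the Fourier transforms of two close ovals
-/

open MeasureTheory Real Set Filter Topology

set_option autoImplicit false

namespace Pool.Agent.Helper99.EX

open Pool.Agent.Helper22.AE (ee rho nk tk box cz IsSupp IsBump ft fhat dom area dom_compact gph ee_norm ee_add ee_neg ee_zero ee_cont ft_norm nk_pos)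
open Pool.Agent.Helper93.EX

private lemma ft_int99 {G : ℝ → ℝ} (hG : IsSupp G) (k : ℤ × ℤ) :
    IntegrableOn (fun p : ℝ × ℝ => ee (-((k.1 : ℝ) * p.1 + (k.2 : ℝ) * p.2))) (dom G) := by
  have h1 : Continuous (fun p : ℝ × ℝ => ee (-((k.1 : ℝ) * p.1 + (k.2 : ℝ) * p.2))) := by
    apply ee_cont.comp
    fun_prop
  exact h1.continuousOn.integrableOn_compact (dom_compact hG)

theorem ft_sub99 {A B : ℝ → ℝ} (hA : IsSupp A) (hB : IsSupp B) (h : ∀ θ, A θ ≤ B θ) (k : ℤ × ℤ) :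
    ‖ft B k - ft A k‖ ≤ area B - area A := by
  have hsub : dom A ⊆ dom B := fun p hp θ => (hp θ).trans (h θ)
  have hmA : MeasurableSet (dom A) := (dom_compact hA).measurableSet
  have hfB : volume (dom B) ≠ ⊤ := (dom_compact hB).measure_lt_top.ne
  have hfA : volume (dom A) ≠ ⊤ := (dom_compact hA).measure_lt_top.ne
  have e1 : ft B k - ft A k = ∫ p in dom B \ dom A, ee (-((k.1 : ℝ) * p.1 + (k.2 : ℝ) * p.2)) := by
    unfold ft
    rw [setIntegral_sdiff hmA (ft_int99 hB k) hsub]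
  have e2 : volume (dom B \ dom A) = volume (dom B) - volume (dom A) := measure_sdiff hsub hmA.nullMeasurableSet hfA
  have hle : volume (dom A) ≤ volume (dom B) := measure_mono hsub
  rw [e1]
  have h1 : ‖∫ p in dom B \ dom A, ee (-((k.1 : ℝ) * p.1 + (k.2 : ℝ) * p.2))‖ ≤ 1 * (volume (dom B \ dom A)).toReal := by
    refine norm_setIntegral_le_of_norm_le_const (lt_of_le_of_lt (measure_mono sdiff_subset) hfB.lt_top) ?_
    intro p _
    rw [ee_norm]
  refine h1.trans (le_of_eq ?_)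
  rw [one_mul, e2, ENNReal.toReal_sub_of_le hle hfB]
  rfl

private lemma bump_int99 {φ : ℝ × ℝ → ℝ} (hφ : IsBump φ) : Integrable φ := by
  by_contra hcon
  have h2 := hφ.int_one
  rw [integral_undef hcon] at h2
  exact zero_ne_one h2

private lemma ee_lip99 (x : ℝ) : ‖ee x - 1‖ ≤ 2 * π * |x| := by
  have h1 : ee x - 1 = Complex.exp (Complex.I * ((2 * π * x : ℝ) : ℂ)) - 1 := by
    unfold ee
    rw [mul_comm Complex.I]
  rw [h1]
  refine (Real.norm_exp_I_mul_ofReal_sub_one_le).trans ?_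
  rw [Real.norm_eq_abs, abs_mul, abs_of_pos (by positivity : (0 : ℝ) < 2 * π)]

theorem fhat_sub99 {φ : ℝ × ℝ → ℝ} (hφ : IsBump φ) (x y : ℝ) : ‖fhat φ x y - 1‖ ≤ 2 * π * (|x| + |y|) := by
  have hi := bump_int99 hφ
  have hic : Integrable (fun p => (φ p : ℂ)) := hi.ofReal
  have hee : Continuous fun p : ℝ × ℝ => ee (-(x * p.1 + y * p.2)) := by
    apply ee_cont.comp
    fun_prop
  have h1 : (∫ p : ℝ × ℝ, (φ p : ℂ)) = 1 := by
    rw [integral_complex_ofReal, hφ.int_one, Complex.ofReal_one]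
  have h2 : fhat φ x y - 1 = ∫ p : ℝ × ℝ, (ee (-(x * p.1 + y * p.2)) - 1) * (φ p : ℂ) := by
    have h3 : ∫ p : ℝ × ℝ, (ee (-(x * p.1 + y * p.2)) - 1) * (φ p : ℂ) =
        (∫ p : ℝ × ℝ, ee (-(x * p.1 + y * p.2)) * (φ p : ℂ)) - ∫ p : ℝ × ℝ, (φ p : ℂ) := by
      rw [← integral_sub]
      · congr 1
        funext p
        ring
      · refine hic.bdd_mul (c := 1) hee.aestronglyMeasurable ?_
        exact Eventually.of_forall fun p => (ee_norm _).le
      · exact hic
    rw [h3, h1]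
    rfl
  rw [h2]
  calc ‖∫ p : ℝ × ℝ, (ee (-(x * p.1 + y * p.2)) - 1) * (φ p : ℂ)‖
      ≤ ∫ p : ℝ × ℝ, 2 * π * (|x| + |y|) * φ p := by
        refine norm_integral_le_of_norm_le (hi.const_mul _) (Eventually.of_forall fun p => ?_)
        rw [norm_mul, Complex.norm_real, Real.norm_eq_abs, abs_of_nonneg (hφ.nonneg p)]
        by_cases hp : 1 < p.1 ^ 2 + p.2 ^ 2
        · rw [hφ.supp p hp, mul_zero, mul_zero]
        · push Not at hp
          refine mul_le_mul_of_nonneg_right ?_ (hφ.nonneg p)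
          refine (ee_lip99 _).trans ?_
          refine mul_le_mul_of_nonneg_left ?_ (by positivity)
          have h3 : |p.1| ≤ 1 := (sq_le_one_iff_abs_le_one p.1).mp (by nlinarith [sq_nonneg p.2])
          have h4 : |p.2| ≤ 1 := (sq_le_one_iff_abs_le_one p.2).mp (by nlinarith [sq_nonneg p.1])
          rw [abs_neg]
          refine (abs_add_le _ _).trans ?_
          rw [abs_mul, abs_mul]
          have h5 := mul_le_mul_of_nonneg_left h3 (abs_nonneg x)
          have h6 := mul_le_mul_of_nonneg_left h4 (abs_nonneg y)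
          linarith
    _ = 2 * π * (|x| + |y|) := by
        rw [integral_const_mul, hφ.int_one, mul_one]

theorem lo_card99 {N : ℕ} (hN : 1 ≤ N) : ((lo N).card : ℝ) ≤ 9 * (N : ℝ) ^ 2 := by
  have h1 : (lo N).card ≤ (box N).card := Finset.card_filter_le _ _
  have h2 : (box N).card = (2 * N + 1) * (2 * N + 1) := by
    unfold box
    rw [Finset.card_product, Int.card_Icc]
    have : ((N : ℤ) + 1 - -(N : ℤ)).toNat = 2 * N + 1 := by omega
    rw [this]
  rw [h2] at h1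
  have h3 : ((lo N).card : ℝ) ≤ (2 * (N : ℝ) + 1) * (2 * (N : ℝ) + 1) := by exact_mod_cast h1
  have h4 : (1 : ℝ) ≤ N := by exact_mod_cast hN
  nlinarith

/-- comparison of the low frequencies -/
theorem low_cmp99 {A B : ℝ → ℝ} (hA : IsSupp A) (hB : IsSupp B) (h : (∀ θ, A θ ≤ B θ) ∨ (∀ θ, B θ ≤ A θ))
    {φ : ℝ × ℝ → ℝ} (hφ : IsBump φ) {δ : ℝ} (hδ : 0 < δ) {N : ℕ} (hN : 1 ≤ N) (c : ℝ × ℝ) :
    ‖∑ k ∈ lo N, ft A k * fhat φ (δ * k.1) (δ * k.2) * ee (-((k.1 : ℝ) * c.1 + (k.2 : ℝ) * c.2)) -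
      ∑ k ∈ lo N, ft B k * ee (-((k.1 : ℝ) * c.1 + (k.2 : ℝ) * c.2))‖ ≤
      9 * (N : ℝ) ^ 2 * (|area A - area B| + 2 * δ * ∫ t in (0 : ℝ)..(2 * π), rho A t) := by
  have hI : 0 ≤ ∫ t in (0 : ℝ)..(2 * π), rho A t :=
    intervalIntegral.integral_nonneg (by positivity) fun t _ => (hA.rho_pos t).le
  rw [← Finset.sum_sub_distrib]
  refine (norm_sum_le _ _).trans ?_
  have h1 : ∀ k ∈ lo N, ‖ft A k * fhat φ (δ * k.1) (δ * k.2) * ee (-((k.1 : ℝ) * c.1 + (k.2 : ℝ) * c.2)) -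
      ft B k * ee (-((k.1 : ℝ) * c.1 + (k.2 : ℝ) * c.2))‖ ≤ |area A - area B| + 2 * δ * ∫ t in (0 : ℝ)..(2 * π), rho A t := by
    intro k hk
    have hk0 := (mem_lo.1 hk).1
    have hn := nk_pos hk0
    rw [← sub_mul, norm_mul, ee_norm, mul_one]
    have e : ft A k * fhat φ (δ * k.1) (δ * k.2) - ft B k = (ft A k - ft B k) + ft A k * (fhat φ (δ * k.1) (δ * k.2) - 1) := by
      ring
    rw [e]
    refine (norm_add_le _ _).trans (add_le_add ?_ ?_)
    · rcases h with h | h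
      · rw [norm_sub_rev, abs_sub_comm]
        exact (ft_sub99 hA hB h k).trans (le_abs_self _)
      · exact (ft_sub99 hB hA h k).trans (le_abs_self _)
    · rw [norm_mul]
      have h2 := ft_norm hA hk0
      have h3 := fhat_sub99 hφ (δ * k.1) (δ * k.2)
      have h4 : |(k.1 : ℝ)| ≤ nk k := Complex.abs_re_le_norm (cz k)
      have h5 : |(k.2 : ℝ)| ≤ nk k := Complex.abs_im_le_norm (cz k)
      rw [abs_mul, abs_mul, abs_of_pos hδ, ← mul_add] at h3
      have h6 : 2 * π * (δ * (|(k.1 : ℝ)| + |(k.2 : ℝ)|)) ≤ 2 * π * (δ * (2 * nk k)) := by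
        have : |(k.1 : ℝ)| + |(k.2 : ℝ)| ≤ 2 * nk k := by linarith
        gcongr
      have h7 := mul_le_mul h2 (h3.trans h6) (norm_nonneg _) (by positivity)
      refine h7.trans (le_of_eq ?_)
      field_simp
  refine (Finset.sum_le_sum h1).trans ?_
  rw [Finset.sum_const, nsmul_eq_mul]
  exact mul_le_mul_of_nonneg_right (lo_card99 hN) (by positivity)

end Pool.Agent.Helper99.EX
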