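import Pool.Agent.Helper99.EX.TruncA
import Pool.Agent.Helper22.AE.G5
import Pool.Agent.Helper22.LP.Unif

/-!
# EX, block T (the truncated formula), part D: Poisson summation, with the low frequencies apart

As `dil_blocks_u` (Helper22/LP/Unif.lean, whose private lemmas are copied).
-/

open MeasureTheory Real Set Filter Topology

set_option autoImplicit false

namespace Pool.Agent.Helper99.EX

open Pool.Agent.Helper22.AE
open Pool.Agent.Helper22.AC (cntc ga smcc poisson_c)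
open Pool.Agent.Helper92.GC (dt sqa)
open Pool.Agent.Helper93.EX (sn)

private lemma d1_nat_99 : Summable (fun n : ℕ => ((1 + |((n : ℤ) : ℝ)|) ^ 2)⁻¹) := by
  have h0 : Summable (fun n : ℕ => 1 / ((n + 1 : ℕ) : ℝ) ^ 2) :=
    (summable_nat_add_iff 1).mpr (Real.summable_one_div_nat_pow.mpr (by norm_num : 1 < 2))
  refine h0.congr (fun n => ?_)
  have hn : (0 : ℝ) ≤ n := Nat.cast_nonneg n
  rw [Int.cast_natCast, abs_of_nonneg hn, one_div]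
  push_cast
  rw [add_comm]

private lemma d1_int_99 : Summable (fun n : ℤ => ((1 + |(n : ℝ)|) ^ 2)⁻¹) := by
  apply Summable.of_nat_of_neg
  · exact d1_nat_99
  · refine d1_nat_99.congr (fun n => ?_)
    push_cast
    rw [abs_neg]

/-- the majorant of the tail -/
private noncomputable def d2m_99 (k : ℤ × ℤ) : ℝ := ((1 + |(k.1 : ℝ)|) ^ 2)⁻¹ * ((1 + |(k.2 : ℝ)|) ^ 2)⁻¹

private lemma d1_sum_99 : Summable d2m_99 :=
  Summable.mul_of_nonneg d1_int_99 d1_int_99 (fun n => by positivity) (fun n => by positivity)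

private lemma d1_nk_99 (k : ℤ × ℤ) : nk k = sqrt ((k.1 : ℝ) ^ 2 + (k.2 : ℝ) ^ 2) := by
  unfold nk cz
  rw [Complex.norm_def, Complex.normSq_mk]
  congr 1
  ring

private lemma d1_abs_99 (k : ℤ × ℤ) : |(k.1 : ℝ)| ≤ nk k ∧ |(k.2 : ℝ)| ≤ nk k := by
  rw [d1_nk_99]
  constructor
  · apply Real.le_sqrt_of_sq_le
    rw [sq_abs]
    nlinarith [sq_nonneg (k.2 : ℝ)]
  · apply Real.le_sqrt_of_sq_le
    rw [sq_abs]
    nlinarith [sq_nonneg (k.1 : ℝ)]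

private lemma d1_one_99 {k : ℤ × ℤ} (hk : k ≠ 0) : 1 ≤ nk k := by
  rw [d1_nk_99]
  apply Real.le_sqrt_of_sq_le
  have h1 : (1 : ℤ) ≤ k.1 ^ 2 + k.2 ^ 2 := by
    by_contra hn
    push Not at hn
    apply hk
    have h2 : k.1 ^ 2 = 0 := by nlinarith [sq_nonneg k.1, sq_nonneg k.2]
    have h3 : k.2 ^ 2 = 0 := by nlinarith [sq_nonneg k.1, sq_nonneg k.2]
    ext
    · exact pow_eq_zero_iff (two_ne_zero) |>.mp h2
    · exact pow_eq_zero_iff (two_ne_zero) |>.mp h3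
  have h2 : (1 : ℝ) ≤ (k.1 : ℝ) ^ 2 + (k.2 : ℝ) ^ 2 := by exact_mod_cast h1
  rw [one_pow]
  exact h2

/-- comparison with the majorant -/
private lemma d1_major_99 {k : ℤ × ℤ} (hk : k ≠ 0) : (nk k ^ 4)⁻¹ ≤ 16 * d2m_99 k := by
  have h0 := d1_one_99 hk
  obtain ⟨h1, h2⟩ := d1_abs_99 k
  have h3 : (1 + |(k.1 : ℝ)|) ^ 2 ≤ (2 * nk k) ^ 2 := pow_le_pow_left₀ (by positivity) (by linarith) 2
  have h4 : (1 + |(k.2 : ℝ)|) ^ 2 ≤ (2 * nk k) ^ 2 := pow_le_pow_left₀ (by positivity) (by linarith) 2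
  have h5 : (1 + |(k.1 : ℝ)|) ^ 2 * (1 + |(k.2 : ℝ)|) ^ 2 ≤ 16 * nk k ^ 4 := by
    have := mul_le_mul h3 h4 (by positivity) (by positivity)
    refine this.trans (le_of_eq ?_)
    ring
  unfold d2m_99
  rw [← mul_inv, ← div_eq_mul_inv, inv_eq_one_div, div_le_div_iff₀ (by positivity) (by positivity)]
  linarith

/-- a term of the tail -/
private lemma d1_term_99 {G : ℝ → ℝ} (hG : IsSupp G) {φ : ℝ × ℝ → ℝ} {e2 C1 CA R₀ τ : ℝ} (hτ : τ < 1)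
    {A : ℕ} (hA : 5 ≤ e2 * A) (hR : 1 ≤ R₀)
    (h1 : ∫ t in (0 : ℝ)..(2 * π), rho G t ≤ C1 * (2 * R₀)) (hC1 : 0 ≤ C1)
    (h2 : ∀ x y : ℝ, ‖fhat φ x y‖ * (1 + sqrt (x ^ 2 + y ^ 2)) ^ (A + 4) ≤ CA) (hCA : 0 ≤ CA)
    {k : ℤ × ℤ} (hk : k ≠ 0) {n1 : ℕ} (hn : R₀ ^ (τ + e2) ≤ 2 ^ n1) (hk1 : (2 : ℝ) ^ n1 ≤ nk k) :
    ‖ft G k * fhat φ (R₀ ^ (-τ) * k.1) (R₀ ^ (-τ) * k.2)‖ ≤ 16 * C1 * CA * d2m_99 k := by
  have hR0 : 0 < R₀ := by linarith
  have h0 := d1_one_99 hk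
  set δ : ℝ := R₀ ^ (-τ) with hδ
  have hδ0 : 0 < δ := Real.rpow_pos_of_pos hR0 _
  -- the first factor
  have h3 : ‖ft G k‖ ≤ C1 * R₀ / nk k := by
    refine (ft_norm hG hk).trans ?_
    have h4 : (∫ t in (0 : ℝ)..(2 * π), rho G t) / (2 * π * nk k) ≤ C1 * (2 * R₀) / (2 * π * nk k) :=
      div_le_div_of_nonneg_right h1 (by positivity)
    refine h4.trans ?_
    rw [div_le_div_iff₀ (by positivity) (by positivity)]
    have h5 : 1 ≤ π := by linarith [Real.pi_gt_three]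
    have h6 : 0 ≤ C1 * R₀ * nk k := by positivity
    nlinarith
  -- the second factor
  have h4 : sqrt ((δ * (k.1 : ℝ)) ^ 2 + (δ * (k.2 : ℝ)) ^ 2) = δ * nk k := by
    rw [d1_nk_99, mul_pow, mul_pow, ← mul_add, Real.sqrt_mul (by positivity), Real.sqrt_sq hδ0.le]
  have h5 := h2 (δ * k.1) (δ * k.2)
  rw [h4] at h5
  have h6 : R₀ ^ e2 ≤ δ * nk k := by
    have h7 : R₀ ^ e2 = δ * R₀ ^ (τ + e2) := by
      rw [hδ, ← Real.rpow_add hR0]
      congr 1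
      ring
    rw [h7]
    exact mul_le_mul_of_nonneg_left (hn.trans hk1) hδ0.le
  have h7 : R₀ ^ 5 ≤ (δ * nk k) ^ A := by
    have h8 : (R₀ ^ e2) ^ A ≤ (δ * nk k) ^ A := pow_le_pow_left₀ (by positivity) h6 A
    refine le_trans ?_ h8
    rw [← Real.rpow_natCast (R₀ ^ e2) A, ← Real.rpow_mul hR0.le, ← Real.rpow_natCast R₀ 5]
    exact Real.rpow_le_rpow_of_exponent_le hR (by exact_mod_cast hA)
  have h8 : (R₀ ^ 4)⁻¹ ≤ δ ^ 4 := by
    rw [hδ, ← Real.rpow_natCast (R₀ ^ (-τ)) 4, ← Real.rpow_mul hR0.le, ← Real.rpow_natCast R₀ 4,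
      ← Real.rpow_neg hR0.le]
    apply Real.rpow_le_rpow_of_exponent_le hR
    push_cast
    linarith
  have h9 : R₀ * nk k ^ 4 ≤ (1 + δ * nk k) ^ (A + 4) := by
    have g1 : (δ * nk k) ^ (A + 4) ≤ (1 + δ * nk k) ^ (A + 4) :=
      pow_le_pow_left₀ (by positivity) (by linarith) _
    refine le_trans ?_ g1
    rw [pow_add]
    have g2 : (R₀ ^ 4)⁻¹ * nk k ^ 4 ≤ (δ * nk k) ^ 4 := by
      rw [mul_pow]
      exact mul_le_mul_of_nonneg_right h8 (by positivity)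
    have g3 : R₀ ^ 5 * ((R₀ ^ 4)⁻¹ * nk k ^ 4) ≤ (δ * nk k) ^ A * (δ * nk k) ^ 4 :=
      mul_le_mul h7 g2 (by positivity) (by positivity)
    refine le_trans (le_of_eq ?_) g3
    field_simp
  have h10 : ‖fhat φ (δ * k.1) (δ * k.2)‖ ≤ CA / (R₀ * nk k ^ 4) := by
    rw [le_div_iff₀ (by positivity)]
    exact (mul_le_mul_of_nonneg_left h9 (norm_nonneg _)).trans h5
  rw [norm_mul]
  calc ‖ft G k‖ * ‖fhat φ (δ * k.1) (δ * k.2)‖ ≤ (C1 * R₀ / nk k) * (CA / (R₀ * nk k ^ 4)) :=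
        mul_le_mul h3 h10 (norm_nonneg _) (by positivity)
    _ = C1 * CA * ((nk k)⁻¹ * (nk k ^ 4)⁻¹) := by field_simp
    _ ≤ C1 * CA * (1 * (16 * d2m_99 k)) := by
        apply mul_le_mul_of_nonneg_left _ (by positivity)
        exact mul_le_mul (inv_le_one_of_one_le₀ h0) (d1_major_99 hk) (by positivity) (by positivity)
    _ = 16 * C1 * CA * d2m_99 k := by ring

private lemma bump_int_99 {φ : ℝ × ℝ → ℝ} (hφ : IsBump φ) : Integrable φ := by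
  refine hφ.cont.integrable_of_hasCompactSupport ?_
  apply HasCompactSupport.intro (K := Icc (-1 : ℝ) 1 ×ˢ Icc (-1 : ℝ) 1) (isCompact_Icc.prod isCompact_Icc)
  intro p hp
  apply hφ.supp
  by_contra h
  push Not at h
  apply hp
  refine ⟨abs_le.mp ?_, abs_le.mp ?_⟩
  · exact (sq_le_one_iff_abs_le_one p.1).mp (by nlinarith [sq_nonneg p.2])
  · exact (sq_le_one_iff_abs_le_one p.2).mp (by nlinarith [sq_nonneg p.1])

/-- the smoothing factor is an average over translations of the centre -/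
private lemma block_99 {φ : ℝ × ℝ → ℝ} (hφ : IsBump φ) (S : Finset (ℤ × ℤ)) (a : ℤ × ℤ → ℂ) (δ : ℝ)
    (c : ℝ × ℝ) {B : ℝ} (hB : ∀ c' : ℝ × ℝ, ‖∑ k ∈ S, a k * ee (dt k c')‖ ≤ B) :
    ‖∑ k ∈ S, a k * fhat φ (δ * k.1) (δ * k.2) * ee (-((k.1 : ℝ) * c.1 + (k.2 : ℝ) * c.2))‖ ≤ B := by
  have hφi := bump_int_99 hφ
  have hφc : Integrable (fun p => (φ p : ℂ)) := hφi.ofReal
  have hee : ∀ k : ℤ × ℤ, Continuous fun p : ℝ × ℝ =>
      ee (-(δ * (k.1 : ℝ) * p.1 + δ * (k.2 : ℝ) * p.2)) := by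
    intro k
    exact ee_cont.comp (by fun_prop)
  have hint : ∀ k : ℤ × ℤ, Integrable (fun p : ℝ × ℝ =>
      ee (-(δ * (k.1 : ℝ) * p.1 + δ * (k.2 : ℝ) * p.2)) * (φ p : ℂ)) := by
    intro k
    refine hφc.bdd_mul (c := 1) (hee k).aestronglyMeasurable ?_
    exact Filter.Eventually.of_forall fun p => (ee_norm _).le
  have e1 : ∑ k ∈ S, a k * fhat φ (δ * k.1) (δ * k.2) *
        ee (-((k.1 : ℝ) * c.1 + (k.2 : ℝ) * c.2)) =
      ∫ p : ℝ × ℝ, (∑ k ∈ S, a k * ee (dt k (-c.1 - δ * p.1, -c.2 - δ * p.2))) * (φ p : ℂ) := by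
    have e2 : ∀ p : ℝ × ℝ,
        (∑ k ∈ S, a k * ee (dt k (-c.1 - δ * p.1, -c.2 - δ * p.2))) * (φ p : ℂ) =
        ∑ k ∈ S, (a k * ee (-((k.1 : ℝ) * c.1 + (k.2 : ℝ) * c.2))) *
          (ee (-(δ * (k.1 : ℝ) * p.1 + δ * (k.2 : ℝ) * p.2)) * (φ p : ℂ)) := by
      intro p
      rw [Finset.sum_mul]
      refine Finset.sum_congr rfl fun k _ => ?_
      have e3 : dt k (-c.1 - δ * p.1, -c.2 - δ * p.2) =
          -((k.1 : ℝ) * c.1 + (k.2 : ℝ) * c.2) + -(δ * (k.1 : ℝ) * p.1 + δ * (k.2 : ℝ) * p.2) := by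
        unfold dt
        ring
      rw [e3, ee_add]
      ring
    simp only [e2]
    rw [integral_finsetSum _ fun k _ => (hint k).const_mul _]
    refine Finset.sum_congr rfl fun k _ => ?_
    rw [integral_const_mul]
    unfold fhat
    ring
  rw [e1]
  have hB0 : 0 ≤ B := (norm_nonneg _).trans (hB 0)
  calc ‖∫ p : ℝ × ℝ, (∑ k ∈ S, a k * ee (dt k (-c.1 - δ * p.1, -c.2 - δ * p.2))) * (φ p : ℂ)‖
      ≤ ∫ p : ℝ × ℝ, B * φ p := by
        refine norm_integral_le_of_norm_le (hφi.const_mul B) ?_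
        refine Filter.Eventually.of_forall fun p => ?_
        rw [norm_mul, Complex.norm_real, Real.norm_eq_abs, abs_of_nonneg (hφ.nonneg p)]
        exact mul_le_mul_of_nonneg_right (hB _) (hφ.nonneg p)
    _ = B := by
        rw [integral_const_mul, hφ.int_one, mul_one]

private lemma ft_zero_99 (G : ℝ → ℝ) : ft G 0 = (((volume (dom G)).toReal : ℝ) : ℂ) := by
  unfold ft
  have h : ∀ p : ℝ × ℝ, ee (-((((0 : ℤ × ℤ).1 : ℤ) : ℝ) * p.1 + (((0 : ℤ × ℤ).2 : ℤ) : ℝ) * p.2)) = 1 := by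
    intro p
    simp [ee_zero]
  simp only [h]
  rw [MeasureTheory.setIntegral_const]
  simp [Measure.real]

private lemma fhat_zero_99 {φ : ℝ × ℝ → ℝ} (hφ : IsBump φ) : fhat φ 0 0 = 1 := by
  unfold fhat
  have h : ∀ p : ℝ × ℝ, ee (-((0 : ℝ) * p.1 + 0 * p.2)) * (φ p : ℂ) = ((φ p : ℝ) : ℂ) := by
    intro p
    simp [ee_zero]
  simp only [h]
  rw [integral_complex_ofReal, hφ.int_one]
  simp

/-- the smoothed count is the area plus the nonzero frequencies -/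
private lemma smcc_eq_99 {G : ℝ → ℝ} (hG : IsSupp G) {φ : ℝ × ℝ → ℝ} (hφ : IsBump φ) {δ : ℝ} (hδ : 0 < δ)
    (c : ℝ × ℝ) :
    ((smcc φ δ G c : ℝ) : ℂ) = (((volume (dom G)).toReal : ℝ) : ℂ) +
      ∑' k : {k : ℤ × ℤ // k ≠ 0}, ft G k * fhat φ (δ * (k : ℤ × ℤ).1) (δ * (k : ℤ × ℤ).2) *
        ee (-(((k : ℤ × ℤ).1 : ℝ) * c.1 + ((k : ℤ × ℤ).2 : ℝ) * c.2)) := by
  have h1 := poisson_c hG hφ hδ c
  have h2 := h1.summable.sum_add_tsum_compl (s := {0})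
  rw [h1.tsum_eq, Finset.sum_singleton, ft_zero_99] at h2
  have h3 : fhat φ (δ * (((0 : ℤ × ℤ).1 : ℤ) : ℝ)) (δ * (((0 : ℤ × ℤ).2 : ℤ) : ℝ)) = 1 := by
    rw [← fhat_zero_99 hφ]
    simp
  have h4 : ee (-((((0 : ℤ × ℤ).1 : ℤ) : ℝ) * c.1 + (((0 : ℤ × ℤ).2 : ℤ) : ℝ) * c.2)) = 1 := by
    simp [ee_zero]
  rw [h3, h4, mul_one, mul_one] at h2
  rw [← h2]
  congr 1
  refine (Equiv.tsum_eq (Equiv.subtypeEquivRight (fun k => ?_))
    (fun k : {k : ℤ × ℤ // k ≠ 0} => ft G k * fhat φ (δ * (k : ℤ × ℤ).1) (δ * (k : ℤ × ℤ).2) *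
      ee (-(((k : ℤ × ℤ).1 : ℝ) * c.1 + ((k : ℤ × ℤ).2 : ℝ) * c.2))))
  simp


theorem mem_sqa99 {n : ℕ} {k : ℤ × ℤ} : k ∈ sqa (2 ^ n) ↔ 2 ^ n ≤ sn k ∧ sn k < 2 ^ (n + 1) := by
  unfold sqa sn
  rw [Finset.mem_filter, pow_succ]
  constructor
  · rintro ⟨_, h1, h2, h3⟩
    push_cast at h1 h2 h3
    have e1 : |k.1| = (k.1.natAbs : ℤ) := Int.abs_eq_natAbs _
    have e2 : |k.2| = (k.2.natAbs : ℤ) := Int.abs_eq_natAbs _
    rw [e1, e2] at h1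
    rw [e1] at h2
    rw [e2] at h3
    have h1' : 2 ^ n ≤ k.1.natAbs ∨ 2 ^ n ≤ k.2.natAbs := by exact_mod_cast h1
    have h2' : k.1.natAbs < 2 * 2 ^ n := by exact_mod_cast h2
    have h3' : k.2.natAbs < 2 * 2 ^ n := by exact_mod_cast h3
    rw [le_max_iff, max_lt_iff]
    exact ⟨h1', by omega, by omega⟩
  · rintro ⟨h1, h2⟩
    rw [le_max_iff] at h1
    rw [max_lt_iff] at h2
    have e1 : |k.1| = (k.1.natAbs : ℤ) := Int.abs_eq_natAbs _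
    have e2 : |k.2| = (k.2.natAbs : ℤ) := Int.abs_eq_natAbs _
    push_cast
    have g1 : (2 : ℤ) ^ n ≤ |k.1| ∨ (2 : ℤ) ^ n ≤ |k.2| := by
      rw [e1, e2]
      exact_mod_cast h1
    have g2 : |k.1| < 2 * 2 ^ n := by
      rw [e1]
      have : k.1.natAbs < 2 * 2 ^ n := by omega
      exact_mod_cast this
    have g3 : |k.2| < 2 * 2 ^ n := by
      rw [e2]
      have : k.2.natAbs < 2 * 2 ^ n := by omega
      exact_mod_cast this
    refine ⟨?_, g1, g2, g3⟩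
    unfold box
    rw [Finset.mem_product, Finset.mem_Icc, Finset.mem_Icc]
    push_cast
    exact ⟨abs_le.mp g2.le, abs_le.mp g3.le⟩

theorem sn_out99 {n0 n1 : ℕ} (h01 : n0 ≤ n1) {k : ℤ × ℤ} (h0 : 2 ^ n0 ≤ sn k) (h : ∀ n, n0 ≤ n → n < n1 → k ∉ sqa (2 ^ n)) :
    2 ^ n1 ≤ sn k := by
  induction n1, h01 using Nat.le_induction with
  | base => exact h0
  | succ n hn ih =>
    have h1 := ih (fun m hm1 hm2 => h m hm1 (by omega))
    have h2 := h n hn (by omega)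
    rw [mem_sqa99] at h2
    by_contra hcon
    exact h2 ⟨h1, by omega⟩

theorem sn_le_nk99 (k : ℤ × ℤ) : (sn k : ℝ) ≤ nk k := by
  unfold sn
  have e1 : ((k.1.natAbs : ℕ) : ℝ) = |(k.1 : ℝ)| := by
    rw [Nat.cast_natAbs]
    push_cast
    rfl
  have e2 : ((k.2.natAbs : ℕ) : ℝ) = |(k.2 : ℝ)| := by
    rw [Nat.cast_natAbs]
    push_cast
    rfl
  push_cast
  rw [max_le_iff]
  refine ⟨?_, ?_⟩
  · have h := (d1_abs_99 k).1
    rw [← e1] at h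
    simpa using h
  · have h := (d1_abs_99 k).2
    rw [← e2] at h
    simpa using h

/-- Poisson summation with the low frequencies apart -/
theorem smcc_low99 {φ : ℝ × ℝ → ℝ} (hφ : IsBump φ) {τ e2 I : ℝ} (h0 : 0 < τ) (h1 : τ < 1) (he2 : 0 < e2) (hI : 0 ≤ I) :
    ∃ T0 : ℝ, 0 ≤ T0 ∧ ∀ G : ℝ → ℝ, IsSupp G → ∀ R₀ : ℝ, 2 ≤ R₀ → (∫ t in (0 : ℝ)..(2 * π), rho G t ≤ I * (2 * R₀)) →
      ∀ n0 n1 : ℕ, n0 ≤ n1 → R₀ ^ (τ + e2) ≤ 2 ^ n1 → ∀ B : ℕ → ℝ,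
      (∀ n, n0 ≤ n → n < n1 → ∀ c' : ℝ × ℝ, ‖∑ k ∈ sqa (2 ^ n), ft G k * ee (dt k c')‖ ≤ B n) → ∀ c : ℝ × ℝ,
      ‖((smcc φ (R₀ ^ (-τ)) G c : ℝ) : ℂ) - ((area G : ℝ) : ℂ) -
        ∑ k ∈ lo (2 ^ n0), ft G k * fhat φ (R₀ ^ (-τ) * k.1) (R₀ ^ (-τ) * k.2) * ee (-((k.1 : ℝ) * c.1 + (k.2 : ℝ) * c.2))‖ ≤
        T0 + ∑ n ∈ Finset.Ico n0 n1, B n := by
  classical
  obtain ⟨A, hA⟩ : ∃ A : ℕ, 5 ≤ e2 * A := by
    obtain ⟨A, hA⟩ := exists_nat_ge (5 / e2)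
    refine ⟨A, ?_⟩
    rw [div_le_iff₀ he2] at hA
    linarith
  obtain ⟨CA, hCA⟩ := hφ.decay (A + 4)
  have hCA0 : 0 ≤ CA := le_trans (by positivity) (hCA 0 0)
  set T0 : ℝ := 16 * I * CA * ∑' k, d2m_99 k with hT0
  have hT0' : 0 ≤ T0 := by
    have h1 : 0 ≤ ∑' k, d2m_99 k := tsum_nonneg (fun k => by unfold d2m_99; positivity)
    rw [hT0]
    positivity
  refine ⟨T0, hT0', ?_⟩
  intro G hG R₀ hR₀ hrho n0 n1 h01 hn1 Bn hBn c
  have hR2 : 1 ≤ R₀ := by linarith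
  have hR0 : 0 < R₀ := by linarith
  set δ : ℝ := R₀ ^ (-τ) with hδ
  have hδ0 : 0 < δ := Real.rpow_pos_of_pos hR0 _
  set T : ℤ × ℤ → ℂ := fun k => ft G k * fhat φ (δ * k.1) (δ * k.2) *
    ee (-((k.1 : ℝ) * c.1 + (k.2 : ℝ) * c.2)) with hT
  have hTn : ∀ k, ‖T k‖ = ‖ft G k * fhat φ (δ * k.1) (δ * k.2)‖ := by
    intro k
    rw [hT]
    simp only [norm_mul, ee_norm, mul_one]
  set B0 : Finset (ℤ × ℤ) := (Finset.Ico n0 n1).biUnion (fun n => sqa (2 ^ n)) with hB0d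
  have hdisj : Disjoint (lo (2 ^ n0)) B0 := by
    rw [Finset.disjoint_left]
    intro k h1 h2
    obtain ⟨n, hn, h3⟩ := Finset.mem_biUnion.mp h2
    rw [mem_sqa99] at h3
    have h4 := (mem_lo.1 h1).2
    have h5 : 2 ^ n0 ≤ 2 ^ n := Nat.pow_le_pow_right (by norm_num) (Finset.mem_Ico.1 hn).1
    omega
  set B : Finset (ℤ × ℤ) := lo (2 ^ n0) ∪ B0 with hB
  -- the rest
  set g : ℤ × ℤ → ℂ := fun k => if k = 0 ∨ k ∈ B then 0 else T k with hg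
  have hgle : ∀ k, ‖g k‖ ≤ 16 * I * CA * d2m_99 k := by
    intro k
    by_cases hk : k = 0 ∨ k ∈ B
    · rw [hg]
      simp only [hk, if_true, norm_zero]
      unfold d2m_99
      positivity
    · rw [hg]
      simp only [hk, if_false]
      push Not at hk
      obtain ⟨hk0, hkB⟩ := hk
      rw [hTn]
      have h2 : 2 ^ n1 ≤ sn k := by
        refine sn_out99 h01 ?_ ?_
        · by_contra hcon
          exact hkB (Finset.mem_union_left _ (mem_lo.2 ⟨hk0, by omega⟩))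
        · intro n hn1 hn2 hmem
          exact hkB (Finset.mem_union_right _ (Finset.mem_biUnion.mpr ⟨n, Finset.mem_Ico.mpr ⟨hn1, hn2⟩, hmem⟩))
      have h3 : (2 : ℝ) ^ n1 ≤ nk k := by
        refine le_trans ?_ (sn_le_nk99 k)
        exact_mod_cast h2
      exact d1_term_99 hG h1 hA hR2 hrho hI hCA hCA0 hk0 hn1 h3
  have hmaj : Summable (fun k => 16 * I * CA * d2m_99 k) := d1_sum_99.mul_left _
  have hgs : Summable (fun k => ‖g k‖) := Summable.of_nonneg_of_le (fun k => norm_nonneg _) hgle hmaj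
  have hB0 : (0 : ℤ × ℤ) ∉ B := by
    intro h
    rcases Finset.mem_union.1 h with h | h
    · exact (mem_lo.1 h).1 rfl
    · obtain ⟨n, -, h1⟩ := Finset.mem_biUnion.mp h
      rw [mem_sqa99] at h1
      have h3 : 0 < 2 ^ n := by positivity
      have h4 : sn (0 : ℤ × ℤ) = 0 := by
        unfold sn
        simp
      rw [h4] at h1
      omega
  have hsplit : ∑' k : {k : ℤ × ℤ // k ≠ 0}, T k = ∑ k ∈ B, T k + ∑' k, g k := by
    have e1 : ∑' k : {k : ℤ × ℤ // k ≠ 0}, T k = ∑' k, ({k : ℤ × ℤ | k ≠ 0}).indicator T k :=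
      tsum_subtype {k : ℤ × ℤ | k ≠ 0} T
    have e2 : ∀ k, ({k : ℤ × ℤ | k ≠ 0}).indicator T k = (if k ∈ B then T k else 0) + g k := by
      intro k
      by_cases h1 : k = 0
      · subst h1
        simp [hg, hB0]
      · by_cases h2 : k ∈ B
        · simp [hg, h1, h2, Set.indicator]
        · simp [hg, h1, h2, Set.indicator]
    rw [e1, tsum_congr e2, Summable.tsum_add]
    · congr 1
      rw [tsum_eq_sum (s := B) (fun k hk => by simp [hk])]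
      exact Finset.sum_congr rfl (fun k hk => by simp [hk])
    · exact summable_of_hasFiniteSupport (B.finite_toSet.subset (fun k hk => by
        by_contra h1
        rw [Function.mem_support] at hk
        apply hk
        have : k ∉ B := h1
        simp [this]))
    · exact hgs.of_norm
  have hpd : (Finset.Ico n0 n1 : Set ℕ).PairwiseDisjoint (fun n => sqa (2 ^ n)) := by
    intro m _ n _ hmn
    rw [Function.onFun, Finset.disjoint_left]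
    intro k h1 h2
    rw [mem_sqa99] at h1 h2
    rcases lt_or_gt_of_ne hmn with h | h
    · have h3 : 2 ^ (m + 1) ≤ 2 ^ n := Nat.pow_le_pow_right (by norm_num) h
      omega
    · have h3 : 2 ^ (n + 1) ≤ 2 ^ m := Nat.pow_le_pow_right (by norm_num) h
      omega
  have hsumB : ∑ k ∈ B, T k = ∑ k ∈ lo (2 ^ n0), T k + ∑ n ∈ Finset.Ico n0 n1, ∑ k ∈ sqa (2 ^ n), T k := by
    rw [hB, Finset.sum_union hdisj, hB0d, Finset.sum_biUnion hpd]
  have hblk : ∀ n ∈ Finset.Ico n0 n1, ‖∑ k ∈ sqa (2 ^ n), T k‖ ≤ Bn n := by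
    intro n hn
    rw [Finset.mem_Ico] at hn
    refine block_99 hφ (sqa (2 ^ n)) (ft G) δ c ?_
    exact fun c' => hBn n hn.1 hn.2 c'
  have htail : ‖∑' k, g k‖ ≤ T0 := by
    refine (norm_tsum_le_tsum_norm hgs).trans ?_
    refine (Summable.tsum_le_tsum hgle hgs hmaj).trans (le_of_eq ?_)
    rw [hT0, tsum_mul_left]
  have hmain := smcc_eq_99 hG hφ hδ0 c
  have e : ((smcc φ δ G c : ℝ) : ℂ) - ((area G : ℝ) : ℂ) - ∑ k ∈ lo (2 ^ n0), T k =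
      ∑' k, g k + ∑ n ∈ Finset.Ico n0 n1, ∑ k ∈ sqa (2 ^ n), T k := by
    have e3 : ((smcc φ δ G c : ℝ) : ℂ) = ((area G : ℝ) : ℂ) + ∑' k : {k : ℤ × ℤ // k ≠ 0}, T k := hmain
    rw [e3, hsplit, hsumB]
    ring
  rw [e]
  exact (norm_add_le _ _).trans (add_le_add htail ((norm_sum_le _ _).trans (Finset.sum_le_sum hblk)))

end Pool.Agent.Helper99.EX
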