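import Pool.Agent.Helper93.EX.Defs4

/-!
# EX4, block B4: the sets of violations of the law of the large values are Borel sets
-/

open MeasureTheory Real Set Filter Topology

set_option autoImplicit false

namespace Pool.Agent.Helper93.EX

open Pool.Agent.Helper93.AO Pool.Agent.Helper88.EX
open Pool.Agent.Helper22.AE (rho)

section

variable {k : ℕ} {V : Type} [TopologicalSpace V] {val : V → ℝ → ℝ}

theorem fc99 (h : IsPer k val) : FirstCountableTopology V := by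
  have : FirstCountableTopology (UniformFun ℝ ℝ) := UniformSpace.firstCountableTopology _
  exact h.top.firstCountableTopology

/-- the measure of the set of the large values is lower semicontinuous at the ovals -/
theorem lsc99 (h : IsPer k val) (hk : 2 ≤ k) {σ : ℝ} (hσ : σ = 1 ∨ σ = -1) {H : V}
    (hH : ∀ t, 0 < val H t + deriv (deriv (val H)) t) (c : ℝ × ℝ) (t A B : ℝ) {y : ℝ}
    (hy : y < LV (fun R => Es σ (val H) c R) t A B) :
    ∀ᶠ z : V × (ℝ × ℝ) in 𝓝 (H, c), y < LV (fun R => Es σ (val z.1) z.2 R) t A B := by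
  rcases lt_or_ge y 0 with hy0 | hy0
  · exact Filter.Eventually.of_forall fun z => lt_of_lt_of_le hy0 measureReal_nonneg
  have := fc99 h
  obtain ⟨W, hW⟩ := (𝓝 ((H, c) : V × (ℝ × ℝ))).exists_antitone_basis
  set S : ℕ → Set ℝ := fun n => {R : ℝ | R ∈ Icc A B ∧ ∀ z ∈ W n, t * gR R < Es σ (val z.1) z.2 R} with hS
  have hmono : Monotone S := by
    intro a b hab R hR
    exact ⟨hR.1, fun z hz => hR.2 z (hW.antitone hab hz)⟩
  have hsub : {R : ℝ | R ∈ Icc A B ∧ t * gR R < Es σ (val H) c R} ⊆ ⋃ n, S n := by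
    rintro R ⟨h1, h2⟩
    have h3 := viol_near h hk hσ 0 t hH (c := c) (R := R) (by rw [zero_mul, zero_add]; exact h2)
    obtain ⟨n, hn⟩ := hW.mem_iff.1 h3
    refine mem_iUnion.2 ⟨n, h1, fun z hz => ?_⟩
    have h4 := (hn hz).2
    rw [zero_mul, zero_add] at h4
    exact h4
  have hfin : volume (Icc A B) ≠ ⊤ := by
    rw [Real.volume_Icc]
    exact ENNReal.ofReal_ne_top
  have h1 : ENNReal.ofReal y < volume {R : ℝ | R ∈ Icc A B ∧ t * gR R < Es σ (val H) c R} :=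
    (ENNReal.ofReal_lt_iff_lt_toReal hy0 (measure_ne_top_of_subset (fun R hR => hR.1) hfin)).2 hy
  have h2 : ENNReal.ofReal y < ⨆ n, volume (S n) := by
    rw [← hmono.measure_iUnion]
    exact lt_of_lt_of_le h1 (measure_mono hsub)
  obtain ⟨n, hn⟩ := lt_iSup_iff.1 h2
  filter_upwards [hW.mem n] with z hz
  have h3 : volume (S n) ≤ volume {R : ℝ | R ∈ Icc A B ∧ t * gR R < Es σ (val z.1) z.2 R} :=
    measure_mono fun R hR => ⟨hR.1, hR.2 z hz⟩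
  have h4 := lt_of_lt_of_le hn h3
  unfold LV
  have h5 : volume {R : ℝ | R ∈ Icc A B ∧ t * gR R < Es σ (val z.1) z.2 R} ≠ ⊤ :=
    measure_ne_top_of_subset (fun R hR => hR.1) hfin
  rw [Measure.real]
  exact (ENNReal.ofReal_lt_iff_lt_toReal hy0 h5).1 h4

theorem aff_pos99 (h : IsPer k val) (hk : 2 ≤ k) {H : V} (hH : ∀ t, 0 < val H t + deriv (deriv (val H)) t) : 0 < aff (val H) := by
  obtain ⟨c1, -⟩ := rho_cont88 h hk H
  have i1 : Continuous fun t => rho (val H) t ^ (2 / 3 : ℝ) := c1.rpow_const fun t => Or.inr (by norm_num)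
  unfold aff
  exact intervalIntegral.intervalIntegral_pos_of_pos (i1.intervalIntegrable _ _) (fun t => rpow_pos_of_pos (hH t) _) (by positivity)

/-- the exponential bound is continuous in the oval -/
theorem bd_near99 (h : IsPer k val) (hk : 2 ≤ k) {κ : ℝ} (hκ : 0 < κ) (t e : ℝ) (p : ℕ) {H : V}
    (hH : ∀ t, 0 < val H t + deriv (deriv (val H)) t) {y : ℝ}
    (hy : (2 : ℝ) ^ ((1 - (t / (κ * aff (val H) ^ (3 / 4 : ℝ))) ^ 4 + e) * p : ℝ) < y) :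
    ∀ᶠ f : V in 𝓝 H, (2 : ℝ) ^ ((1 - (t / (κ * aff (val f) ^ (3 / 4 : ℝ))) ^ 4 + e) * p : ℝ) < y := by
  have ha := aff_pos99 h hk hH
  have hc : ContinuousAt (fun x : ℝ => (2 : ℝ) ^ ((1 - (t / (κ * x ^ (3 / 4 : ℝ))) ^ 4 + e) * p : ℝ)) (aff (val H)) := by
    have h1 : ContinuousAt (fun x : ℝ => κ * x ^ (3 / 4 : ℝ)) (aff (val H)) :=
      continuousAt_const.mul (Real.continuousAt_rpow_const _ _ (Or.inr (by norm_num)))
    have h2 : ContinuousAt (fun x : ℝ => (1 - (t / (κ * x ^ (3 / 4 : ℝ))) ^ 4 + e) * (p : ℝ)) (aff (val H)) :=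
      (((continuousAt_const.sub ((continuousAt_const.div h1 (mul_pos hκ (rpow_pos_of_pos ha _)).ne').pow 4)).add
        continuousAt_const).mul continuousAt_const)
    exact continuousAt_const.rpow h2 (Or.inl (by norm_num))
  obtain ⟨δ, hδ, hball⟩ := Metric.eventually_nhds_iff.1 (hc.eventually (gt_mem_nhds hy))
  filter_upwards [aff_near88 h hk hH hδ] with f hf
  exact hball (y := aff (val f)) (by rw [Real.dist_eq]; exact hf)

/-- the critical value is continuous in the oval -/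
theorem crit_near99 (h : IsPer k val) (hk : 2 ≤ k) {κ : ℝ} (t : ℝ) {H : V}
    (hH : ∀ t, 0 < val H t + deriv (deriv (val H)) t) (hy : t < κ * aff (val H) ^ (3 / 4 : ℝ)) :
    ∀ᶠ f : V in 𝓝 H, t < κ * aff (val f) ^ (3 / 4 : ℝ) := by
  have hc : ContinuousAt (fun x : ℝ => κ * x ^ (3 / 4 : ℝ)) (aff (val H)) :=
    continuousAt_const.mul (Real.continuousAt_rpow_const _ _ (Or.inr (by norm_num)))
  obtain ⟨δ, hδ, hball⟩ := Metric.eventually_nhds_iff.1 (hc.eventually (lt_mem_nhds hy))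
  filter_upwards [aff_near88 h hk hH hδ] with f hf
  exact hball (y := aff (val f)) (by rw [Real.dist_eq]; exact hf)

/-- both together -/
theorem strict_near99 (h : IsPer k val) (hk : 2 ≤ k) {σ : ℝ} (hσ : σ = 1 ∨ σ = -1) {κ : ℝ} (hκ : 0 < κ) (t e : ℝ) (p : ℕ) (A B : ℝ)
    {H : V} (hH : ∀ t, 0 < val H t + deriv (deriv (val H)) t) {c : ℝ × ℝ}
    (hv : (2 : ℝ) ^ ((1 - (t / (κ * aff (val H) ^ (3 / 4 : ℝ))) ^ 4 + e) * p : ℝ) < LV (fun R => Es σ (val H) c R) t A B) :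
    ∀ᶠ z : V × (ℝ × ℝ) in 𝓝 (H, c),
      (2 : ℝ) ^ ((1 - (t / (κ * aff (val z.1) ^ (3 / 4 : ℝ))) ^ 4 + e) * p : ℝ) < LV (fun R => Es σ (val z.1) z.2 R) t A B := by
  obtain ⟨y, hy1, hy2⟩ := exists_between hv
  have hfst : Tendsto (fun z : V × (ℝ × ℝ) => z.1) (𝓝 (H, c)) (𝓝 H) := continuous_fst.tendsto (H, c)
  filter_upwards [lsc99 h hk hσ hH c t A B hy2, hfst.eventually (bd_near99 h hk hκ t e p hH hy1)] with z h1 h2
  exact h2.trans h1

omit [TopologicalSpace V] in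
theorem LV_anti99 (F : ℝ → ℝ) {t t' A B : ℝ} (hA : 2 ≤ A) (ht : t' ≤ t) : LV F t A B ≤ LV F t' A B := by
  unfold LV
  refine measureReal_mono ?_ ?_
  · rintro R ⟨h1, h2⟩
    exact ⟨h1, lt_of_le_of_lt (mul_le_mul_of_nonneg_right ht (gR_pos (hA.trans h1.1)).le) h2⟩
  · refine measure_ne_top_of_subset (fun R hR => hR.1) ?_
    rw [Real.volume_Icc]
    exact ENNReal.ofReal_ne_top

theorem LV_per99 (σ t A B : ℝ) (H : ℝ → ℝ) (c : ℝ × ℝ) :
    LV (fun R => Es σ H (Int.fract c.1, Int.fract c.2) R) t A B = LV (fun R => Es σ H c R) t A B := by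
  congr 1
  funext R
  have h2 := Es_add σ H (Int.fract c.1, Int.fract c.2) R (⌊c.1⌋, ⌊c.2⌋)
  simp only [Int.fract_add_floor] at h2
  exact h2.symm

/-- block B4 (a) -/
theorem meas_up4 [MeasurableSpace V] [BorelSpace V] (h : IsPer k val) (hk : 2 ≤ k) {σ : ℝ} (hσ : σ = 1 ∨ σ = -1) {κ : ℝ} (hκ : 0 < κ) :
    MeasurableSet {H : V | (∀ t, 0 < val H t + deriv (deriv (val H)) t) ∧ ∃ t : ℝ, 0 < t ∧ ∃ ε : ℝ, 0 < ε ∧
      ∀ p₀ : ℕ, ∃ p : ℕ, p₀ ≤ p ∧ ∃ c : ℝ × ℝ,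
        2 ^ ((1 - (t / (κ * aff (val H) ^ (3 / 4 : ℝ))) ^ 4 + ε) * p : ℝ) < LV (fun R => Es σ (val H) c R) t (2 ^ p) (2 ^ (p + 1))} := by
  let U : ℚ → ℕ → ℕ → Set V := fun q n m => {H | (∀ t, 0 < val H t + deriv (deriv (val H)) t) ∧ ∃ p : ℕ, m ≤ p ∧ ∃ c : ℝ × ℝ,
    2 ^ ((1 - ((q : ℝ) / (κ * aff (val H) ^ (3 / 4 : ℝ))) ^ 4 + 1 / ((n : ℝ) + 1)) * p : ℝ) <
      LV (fun R => Es σ (val H) c R) q (2 ^ p) (2 ^ (p + 1))}
  have hU : ∀ q n m, IsOpen (U q n m) := by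
    intro q n m
    rw [isOpen_iff_mem_nhds]
    rintro H ⟨hH, p, hp, c, hv⟩
    have h1 := strict_near99 h hk hσ hκ q (1 / ((n : ℝ) + 1)) p (2 ^ p) (2 ^ (p + 1)) hH hv
    have h2 : Tendsto (fun f : V => (f, c)) (𝓝 H) (𝓝 (H, c)) := (Continuous.prodMk_left c).tendsto H
    filter_upwards [pos88 h hk hH, h2.eventually h1] with f hf hf2
    exact ⟨hf, p, hp, c, hf2⟩
  have hset : {H : V | (∀ t, 0 < val H t + deriv (deriv (val H)) t) ∧ ∃ t : ℝ, 0 < t ∧ ∃ ε : ℝ, 0 < ε ∧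
      ∀ p₀ : ℕ, ∃ p : ℕ, p₀ ≤ p ∧ ∃ c : ℝ × ℝ,
        2 ^ ((1 - (t / (κ * aff (val H) ^ (3 / 4 : ℝ))) ^ 4 + ε) * p : ℝ) < LV (fun R => Es σ (val H) c R) t (2 ^ p) (2 ^ (p + 1))} =
      ⋃ q : {q : ℚ // 0 < q}, ⋃ n, ⋂ m, U q.1 n m := by
    ext H
    simp only [mem_iUnion, mem_iInter]
    constructor
    · rintro ⟨hH, t, ht, ε, hε, hR⟩
      have hT : 0 < κ * aff (val H) ^ (3 / 4 : ℝ) := mul_pos hκ (rpow_pos_of_pos (aff_pos99 h hk hH) _)
      set T := κ * aff (val H) ^ (3 / 4 : ℝ) with hTdef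
      obtain ⟨n, hn⟩ := exists_nat_one_div_lt (show 0 < ε / 2 by linarith)
      have hc : ContinuousAt (fun x : ℝ => (x / T) ^ 4) t := by fun_prop
      obtain ⟨δ, hδ, hball⟩ := Metric.eventually_nhds_iff.1 (hc.eventually (lt_mem_nhds (show (t / T) ^ 4 - ε / 2 < (t / T) ^ 4 by linarith)))
      obtain ⟨q, hq1, hq2⟩ := exists_rat_btwn (show max 0 (t - δ) < t from max_lt ht (by linarith))
      have hq0 : (0 : ℝ) < q := lt_of_le_of_lt (le_max_left _ _) hq1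
      have hqδ : t - δ < q := lt_of_le_of_lt (le_max_right _ _) hq1
      have hqT := hball (y := (q : ℝ)) (by rw [Real.dist_eq, abs_lt]; constructor <;> linarith)
      refine ⟨⟨q, by exact_mod_cast hq0⟩, n, fun m => ?_⟩
      obtain ⟨p, hp, c, hv⟩ := hR (max m 1)
      have hp1 : 1 ≤ p := (le_max_right _ _).trans hp
      have hp2 : (2 : ℝ) ≤ 2 ^ p := by
        calc (2 : ℝ) = 2 ^ 1 := (pow_one _).symm
          _ ≤ 2 ^ p := pow_le_pow_right₀ (by norm_num) hp1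
      refine ⟨hH, p, (le_max_left _ _).trans hp, c, ?_⟩
      refine lt_of_le_of_lt ?_ (lt_of_lt_of_le hv (LV_anti99 _ hp2 hq2.le))
      refine Real.rpow_le_rpow_of_exponent_le (by norm_num) (mul_le_mul_of_nonneg_right ?_ (Nat.cast_nonneg p))
      change 1 - ((q : ℝ) / T) ^ 4 + 1 / ((n : ℝ) + 1) ≤ _
      linarith
    · rintro ⟨q, n, hn⟩
      have hq : (0 : ℝ) < q.1 := by exact_mod_cast q.2
      refine ⟨(hn 0).1, q.1, hq, 1 / ((n : ℝ) + 1), by positivity, fun p₀ => ?_⟩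
      exact (hn p₀).2
  rw [hset]
  exact MeasurableSet.iUnion fun q => MeasurableSet.iUnion fun n => MeasurableSet.iInter fun m => (hU q.1 n m).measurableSet

/-- block B4 (b) -/
theorem meas_lo4 [MeasurableSpace V] [BorelSpace V] (h : IsPer k val) (hk : 2 ≤ k) {σ : ℝ} (hσ : σ = 1 ∨ σ = -1) {κ : ℝ} (hκ : 0 < κ) :
    MeasurableSet {H : V | (∀ t, 0 < val H t + deriv (deriv (val H)) t) ∧ ∃ t : ℝ, 0 < t ∧ t < κ * aff (val H) ^ (3 / 4 : ℝ) ∧
      ∃ ε : ℝ, 0 < ε ∧ ∀ p₀ : ℕ, ∃ p : ℕ, p₀ ≤ p ∧ ∃ j : ℕ, j < 2 ∧ ∃ c : ℝ × ℝ,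
        LV (fun R => Es σ (val H) c R) t (2 ^ p * (1 + j / 2)) (2 ^ p * (1 + (j + 1) / 2)) <
          2 ^ ((1 - (t / (κ * aff (val H) ^ (3 / 4 : ℝ))) ^ 4 - ε) * p : ℝ)} := by
  let OV : Set V := {H : V | ∀ t, 0 < val H t + deriv (deriv (val H)) t}
  let Tt : ℚ → Set V := fun q => {H | (∀ t, 0 < val H t + deriv (deriv (val H)) t) ∧ (q : ℝ) < κ * aff (val H) ^ (3 / 4 : ℝ)}
  let O : ℚ → ℕ → ℕ → ℕ → Set V := fun q n p j => {H | (∀ t, 0 < val H t + deriv (deriv (val H)) t) ∧ ∀ c : ℝ × ℝ,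
    2 ^ ((1 - ((q : ℝ) / (κ * aff (val H) ^ (3 / 4 : ℝ))) ^ 4 + -(1 / ((n : ℝ) + 1))) * p : ℝ) <
      LV (fun R => Es σ (val H) c R) q (2 ^ p * (1 + j / 2)) (2 ^ p * (1 + (j + 1) / 2))}
  have hTt : ∀ q, IsOpen (Tt q) := by
    intro q
    rw [isOpen_iff_mem_nhds]
    rintro H ⟨hH, hq⟩
    filter_upwards [pos88 h hk hH, crit_near99 h hk q hH hq] with f hf hf2
    exact ⟨hf, hf2⟩
  have hO : ∀ q n p j, IsOpen (O q n p j) := by
    intro q n p j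
    rw [isOpen_iff_mem_nhds]
    rintro H ⟨hH, hc⟩
    have hK : IsCompact (Icc (0 : ℝ) 1 ×ˢ Icc (0 : ℝ) 1) := isCompact_Icc.prod isCompact_Icc
    have h1 := hK.eventually_forall_of_forall_eventually (x₀ := H)
      (P := fun f c => 2 ^ ((1 - ((q : ℝ) / (κ * aff (val f) ^ (3 / 4 : ℝ))) ^ 4 + -(1 / ((n : ℝ) + 1))) * p : ℝ) <
        LV (fun R => Es σ (val f) c R) q (2 ^ p * (1 + j / 2)) (2 ^ p * (1 + (j + 1) / 2))) (by
      intro c _
      exact strict_near99 h hk hσ hκ q (-(1 / ((n : ℝ) + 1))) p _ _ hH (hc c))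
    filter_upwards [pos88 h hk hH, h1] with f hf hf2
    refine ⟨hf, fun c => ?_⟩
    rw [← LV_per99]
    exact hf2 (Int.fract c.1, Int.fract c.2)
      ⟨⟨Int.fract_nonneg _, (Int.fract_lt_one _).le⟩, ⟨Int.fract_nonneg _, (Int.fract_lt_one _).le⟩⟩
  have hset : {H : V | (∀ t, 0 < val H t + deriv (deriv (val H)) t) ∧ ∃ t : ℝ, 0 < t ∧ t < κ * aff (val H) ^ (3 / 4 : ℝ) ∧
      ∃ ε : ℝ, 0 < ε ∧ ∀ p₀ : ℕ, ∃ p : ℕ, p₀ ≤ p ∧ ∃ j : ℕ, j < 2 ∧ ∃ c : ℝ × ℝ,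
        LV (fun R => Es σ (val H) c R) t (2 ^ p * (1 + j / 2)) (2 ^ p * (1 + (j + 1) / 2)) <
          2 ^ ((1 - (t / (κ * aff (val H) ^ (3 / 4 : ℝ))) ^ 4 - ε) * p : ℝ)} =
      ⋃ q : {q : ℚ // 0 < q}, ⋃ n : ℕ, ⋂ m : ℕ, ⋃ p : {p : ℕ // m + 1 ≤ p}, ⋃ j : {j : ℕ // j < 2},
        (Tt q.1 ∩ (OV \ O q.1 n p.1 j.1)) := by
    ext H
    simp only [mem_iUnion, mem_iInter]
    constructor
    · rintro ⟨hH, t, ht, htT, ε, hε, hR⟩
      have hT : 0 < κ * aff (val H) ^ (3 / 4 : ℝ) := mul_pos hκ (rpow_pos_of_pos (aff_pos99 h hk hH) _)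
      set T := κ * aff (val H) ^ (3 / 4 : ℝ) with hTdef
      obtain ⟨n, hn⟩ := exists_nat_one_div_lt (show 0 < ε / 2 by linarith)
      have hc : ContinuousAt (fun x : ℝ => (x / T) ^ 4) t := by fun_prop
      obtain ⟨δ, hδ, hball⟩ := Metric.eventually_nhds_iff.1 (hc.eventually (gt_mem_nhds (show (t / T) ^ 4 < (t / T) ^ 4 + ε / 2 by linarith)))
      obtain ⟨q, hq1, hq2⟩ := exists_rat_btwn (show t < min T (t + δ) from lt_min htT (by linarith))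
      have hq0 : (0 : ℝ) < q := ht.trans hq1
      have hqδ : (q : ℝ) < t + δ := lt_of_lt_of_le hq2 (min_le_right _ _)
      have hqT0 : (q : ℝ) < T := lt_of_lt_of_le hq2 (min_le_left _ _)
      have hqT := hball (y := (q : ℝ)) (by rw [Real.dist_eq, abs_lt]; constructor <;> linarith)
      refine ⟨⟨q, by exact_mod_cast hq0⟩, n, fun m => ?_⟩
      obtain ⟨p, hp, j, hj, c, hv⟩ := hR (m + 1)
      have hp1 : 1 ≤ p := le_trans (by omega) hp
      have hp2 : (2 : ℝ) ≤ 2 ^ p := by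
        calc (2 : ℝ) = 2 ^ 1 := (pow_one _).symm
          _ ≤ 2 ^ p := pow_le_pow_right₀ (by norm_num) hp1
      have hp3 : (2 : ℝ) ≤ 2 ^ p * (1 + (j : ℝ) / 2) := by
        have hj0 : (0 : ℝ) ≤ j := Nat.cast_nonneg j
        nlinarith
      refine ⟨⟨p, hp⟩, ⟨j, hj⟩, ⟨hH, hqT0⟩, hH, fun hcon => ?_⟩
      have h1 := hcon.2 c
      have h2 := LV_anti99 (fun R => Es σ (val H) c R) (t := (q : ℝ)) (t' := t) (B := 2 ^ p * (1 + ((j : ℝ) + 1) / 2)) hp3 hq1.le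
      have h3 : (2 : ℝ) ^ ((1 - (t / T) ^ 4 - ε) * p : ℝ) ≤
          2 ^ ((1 - ((q : ℝ) / (κ * aff (val H) ^ (3 / 4 : ℝ))) ^ 4 + -(1 / ((n : ℝ) + 1))) * p : ℝ) := by
        refine Real.rpow_le_rpow_of_exponent_le (by norm_num) (mul_le_mul_of_nonneg_right ?_ (Nat.cast_nonneg p))
        rw [← hTdef]
        linarith
      exact absurd h1 (not_lt.2 ((h2.trans hv.le).trans h3))
    · rintro ⟨q, n, hn⟩
      have hq : (0 : ℝ) < q.1 := by exact_mod_cast q.2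
      obtain ⟨_, _, hT0, _⟩ := hn 0
      refine ⟨hT0.1, q.1, hq, hT0.2, 1 / ((n : ℝ) + 1) / 2, by positivity, fun p₀ => ?_⟩
      obtain ⟨⟨p, hp⟩, ⟨j, hj⟩, hT1, hH, hO'⟩ := hn p₀
      have h1 : ∃ c : ℝ × ℝ, LV (fun R => Es σ (val H) c R) q.1 (2 ^ p * (1 + j / 2)) (2 ^ p * (1 + (j + 1) / 2)) ≤
          2 ^ ((1 - ((q.1 : ℝ) / (κ * aff (val H) ^ (3 / 4 : ℝ))) ^ 4 + -(1 / ((n : ℝ) + 1))) * p : ℝ) := by
        by_contra hcon
        push Not at hcon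
        exact hO' ⟨hH, hcon⟩
      obtain ⟨c, hc⟩ := h1
      refine ⟨p, by omega, j, hj, c, lt_of_le_of_lt hc ?_⟩
      have hp0 : (0 : ℝ) < p := by exact_mod_cast (by omega : 0 < p)
      refine Real.rpow_lt_rpow_of_exponent_lt (by norm_num) (mul_lt_mul_of_pos_right ?_ hp0)
      have : 0 < 1 / ((n : ℝ) + 1) := by positivity
      linarith
  rw [hset]
  exact MeasurableSet.iUnion fun q => MeasurableSet.iUnion fun n => MeasurableSet.iInter fun m => MeasurableSet.iUnion fun p =>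
    MeasurableSet.iUnion fun j => (hTt q.1).measurableSet.inter ((isOpen_ov h hk).measurableSet.diff (hO q.1 n p.1 j.1).measurableSet)

end

end Pool.Agent.Helper93.EX
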