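import Pool.Agent.Helper93.EX.Defs

/-!
# EX, block T (the truncated formula), part A: grouping of the low frequencies by primitive vectors
-/

open MeasureTheory Real Set Filter Topology

set_option autoImplicit false

namespace Pool.Agent.Helper99.EX

open Pool.Agent.Helper22.AE (ee rho nk tk box cz)
open Pool.Agent.Helper93.EX

/-- the low frequencies: `0 < max |k_i| < N` -/
noncomputable def lo (N : ℕ) : Finset (ℤ × ℤ) := (box N).filter fun k => k ≠ 0 ∧ sn k < N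

theorem box_of_sn99 {N : ℕ} {k : ℤ × ℤ} (h : sn k < N) : k ∈ box N := by
  unfold sn at h
  unfold box
  rw [Finset.mem_product, Finset.mem_Icc, Finset.mem_Icc]
  omega

theorem mem_lo {N : ℕ} {k : ℤ × ℤ} : k ∈ lo N ↔ k ≠ 0 ∧ sn k < N := by
  unfold lo
  rw [Finset.mem_filter]
  exact ⟨fun h => h.2, fun h => ⟨box_of_sn99 h.2, h⟩⟩

theorem mem_prim {N : ℕ} {k : ℤ × ℤ} : k ∈ prim N ↔ Int.gcd k.1 k.2 = 1 ∧ sn k < N := by
  unfold prim
  rw [Finset.mem_filter]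
  exact ⟨fun h => h.2, fun h => ⟨box_of_sn99 h.2, h⟩⟩

/-- the multiple `(j + 1) k` -/
def mu99 (j : ℕ) (k : ℤ × ℤ) : ℤ × ℤ := (((j + 1 : ℕ) : ℤ) * k.1, ((j + 1 : ℕ) : ℤ) * k.2)

theorem sn_mu99 (j : ℕ) (k : ℤ × ℤ) : sn (mu99 j k) = (j + 1) * sn k := by
  unfold sn mu99
  simp only
  rw [Int.natAbs_mul, Int.natAbs_mul, Int.natAbs_natCast]
  rcases le_total k.1.natAbs k.2.natAbs with h | h
  · rw [max_eq_right h, max_eq_right (Nat.mul_le_mul_left _ h)]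
  · rw [max_eq_left h, max_eq_left (Nat.mul_le_mul_left _ h)]

theorem cz_mu99 (j : ℕ) (k : ℤ × ℤ) : cz (mu99 j k) = (((j + 1 : ℕ) : ℝ) : ℂ) * cz k := by
  unfold cz mu99
  apply Complex.ext
  · rw [Complex.re_ofReal_mul]
    push_cast
    ring
  · rw [Complex.im_ofReal_mul]
    push_cast
    ring

theorem nk_mu99 (j : ℕ) (k : ℤ × ℤ) : nk (mu99 j k) = ((j + 1 : ℕ) : ℝ) * nk k := by
  unfold nk
  rw [cz_mu99, norm_mul, Complex.norm_real, Real.norm_of_nonneg (Nat.cast_nonneg _)]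

theorem tk_mu99 (j : ℕ) (k : ℤ × ℤ) : tk (mu99 j k) = tk k := by
  unfold tk
  rw [cz_mu99, Complex.arg_real_mul _ (by positivity)]

theorem ak_mu99 (H : ℝ → ℝ) (j : ℕ) (k : ℤ × ℤ) : ak H (mu99 j k) = ((j + 1 : ℕ) : ℝ) ^ (-(3 / 2) : ℝ) * ak H k := by
  unfold ak
  rw [nk_mu99, tk_mu99, Real.mul_rpow (Nat.cast_nonneg _) (show 0 ≤ nk k from norm_nonneg _)]
  ring

theorem sn_pos99 {k : ℤ × ℤ} (h : k ≠ 0) : 0 < sn k := by
  by_contra hcon
  apply h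
  unfold sn at hcon
  ext
  · show k.1 = 0
    omega
  · show k.2 = 0
    omega

theorem sum_group99 {A : Type*} [AddCommMonoid A] (N : ℕ) (F : ℤ × ℤ → A) :
    ∑ k ∈ lo N, F k = ∑ k ∈ prim N, ∑ j ∈ Finset.range ((N - 1) / sn k), F (mu99 j k) := by
  rw [Finset.sum_sigma']
  symm
  refine Finset.sum_bij' (fun x _ => mu99 x.2 x.1)
    (fun k _ => ⟨(k.1 / (Int.gcd k.1 k.2 : ℤ), k.2 / (Int.gcd k.1 k.2 : ℤ)), Int.gcd k.1 k.2 - 1⟩) ?_ ?_ ?_ ?_ ?_
  · rintro ⟨k, j⟩ hx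
    rw [Finset.mem_sigma, mem_prim, Finset.mem_range] at hx
    obtain ⟨⟨h1, h2⟩, h3⟩ := hx
    simp only at h1 h2 h3 ⊢
    have h0 : k ≠ 0 := by
      rintro rfl
      simp at h1
    have hs := sn_pos99 h0
    have h4 : j + 1 ≤ (N - 1) / sn k := h3
    rw [Nat.le_div_iff_mul_le hs] at h4
    rw [mem_lo, sn_mu99]
    refine ⟨?_, by omega⟩
    intro h5
    have h6 := sn_mu99 j k
    rw [h5] at h6
    have h7 : sn (0 : ℤ × ℤ) = 0 := by
      unfold sn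
      simp
    rw [h7] at h6
    have h8 : 0 < (j + 1) * sn k := Nat.mul_pos (by omega) hs
    omega
  · intro k hk
    rw [mem_lo] at hk
    have hg : 0 < Int.gcd k.1 k.2 := by
      rw [Int.gcd_pos_iff]
      by_contra hcon
      push Not at hcon
      exact hk.1 (Prod.ext hcon.1 hcon.2)
    have e : mu99 (Int.gcd k.1 k.2 - 1) (k.1 / (Int.gcd k.1 k.2 : ℤ), k.2 / (Int.gcd k.1 k.2 : ℤ)) = k := by
      unfold mu99
      have h1 : Int.gcd k.1 k.2 - 1 + 1 = Int.gcd k.1 k.2 := by omega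
      rw [h1]
      ext
      · exact Int.mul_ediv_cancel' (Int.gcd_dvd_left _ _)
      · exact Int.mul_ediv_cancel' (Int.gcd_dvd_right _ _)
    have hs := sn_mu99 (Int.gcd k.1 k.2 - 1) (k.1 / (Int.gcd k.1 k.2 : ℤ), k.2 / (Int.gcd k.1 k.2 : ℤ))
    rw [e] at hs
    have h1 : Int.gcd k.1 k.2 - 1 + 1 = Int.gcd k.1 k.2 := by omega
    rw [h1] at hs
    obtain ⟨s, hsd⟩ : ∃ s : ℕ, s = sn (k.1 / (Int.gcd k.1 k.2 : ℤ), k.2 / (Int.gcd k.1 k.2 : ℤ)) := ⟨_, rfl⟩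
    obtain ⟨g, hgd⟩ : ∃ g : ℕ, g = Int.gcd k.1 k.2 := ⟨_, rfl⟩
    have h2 := sn_pos99 hk.1
    have h3 : 0 < s := by
      rw [hsd]
      by_contra hcon
      have h4 : sn (k.1 / (Int.gcd k.1 k.2 : ℤ), k.2 / (Int.gcd k.1 k.2 : ℤ)) = 0 := by omega
      rw [h4, Nat.mul_zero] at hs
      omega
    have h5 : g * s < N := by
      rw [hsd, hgd, ← hs]
      exact hk.2
    rw [Finset.mem_sigma, mem_prim, Finset.mem_range]
    simp only
    rw [← hsd, ← hgd]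
    refine ⟨⟨?_, ?_⟩, ?_⟩
    · rw [hgd]
      exact Int.gcd_ediv_gcd_ediv_gcd hg
    · have : s ≤ g * s := Nat.le_mul_of_pos_left _ (by omega)
      omega
    · have h6 : g ≤ (N - 1) / s := by
        rw [Nat.le_div_iff_mul_le h3]
        omega
      omega
  · rintro ⟨k, j⟩ hx
    rw [Finset.mem_sigma, mem_prim] at hx
    obtain ⟨⟨h1, _⟩, _⟩ := hx
    simp only at h1
    have h2 : Int.gcd (mu99 j k).1 (mu99 j k).2 = j + 1 := by
      unfold mu99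
      rw [Int.gcd_mul_left, h1, Int.natAbs_natCast, mul_one]
    simp only [h2]
    have h3 : ((j + 1 : ℕ) : ℤ) ≠ 0 := by positivity
    have h4 : ((mu99 j k).1 / ((j + 1 : ℕ) : ℤ), (mu99 j k).2 / ((j + 1 : ℕ) : ℤ)) = k := by
      unfold mu99
      ext
      · exact Int.mul_ediv_cancel_left _ h3
      · exact Int.mul_ediv_cancel_left _ h3
    rw [h4]
    simp
  · intro k hk
    rw [mem_lo] at hk
    have hg : 0 < Int.gcd k.1 k.2 := by
      rw [Int.gcd_pos_iff]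
      by_contra hcon
      push Not at hcon
      exact hk.1 (Prod.ext hcon.1 hcon.2)
    unfold mu99
    have h1 : Int.gcd k.1 k.2 - 1 + 1 = Int.gcd k.1 k.2 := by omega
    simp only [h1]
    ext
    · exact Int.mul_ediv_cancel' (Int.gcd_dvd_left _ _)
    · exact Int.mul_ediv_cancel' (Int.gcd_dvd_right _ _)
  · intro x _
    rfl

/-- the sum of the frequencies, not grouped -/
theorem mx_eq99 (H : ℝ → ℝ) (N : ℕ) (R : ℝ) (c : ℝ × ℝ) :
    Mx H N R c = ∑ k ∈ lo N, 1 / π * (ak H k * cos (2 * π * (R * (nk k * H (tk k)) + ((k.1 : ℝ) * c.1 + (k.2 : ℝ) * c.2)) - 3 * π / 4)) := by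
  rw [sum_group99]
  unfold Mx
  refine Finset.sum_congr rfl fun k _ => ?_
  unfold fJ
  rw [Finset.mul_sum, Finset.mul_sum]
  refine Finset.sum_congr rfl fun j _ => ?_
  rw [ak_mu99, nk_mu99, tk_mu99]
  have e : R * (((j + 1 : ℕ) : ℝ) * nk k * H (tk k)) + (((mu99 j k).1 : ℝ) * c.1 + ((mu99 j k).2 : ℝ) * c.2) =
      ((j + 1 : ℕ) : ℝ) * (R * (nk k * H (tk k)) + ((k.1 : ℝ) * c.1 + (k.2 : ℝ) * c.2)) := by
    unfold mu99
    push_cast
    ring
  rw [e]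
  ring

end Pool.Agent.Helper99.EX
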