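import Pool.Agent.Helper99.EX.TruncA
import Pool.Agent.Helper92.EO.Half
import Pool.Agent.Helper92.EO.Key
import Pool.Agent.Helper92.EO.Lat
import Pool.Agent.Helper92.EO.Ker
import Pool.Agent.Helper22.LP.P1
import Pool.Agent.Helper22.LP.P2

/-!
# EX, block T (the truncated formula), part B: the low frequencies of a fixed oval
-/

open MeasureTheory Real Set Filter Topology

set_option autoImplicit false

namespace Pool.Agent.Helper99.EX

open Pool.Agent.Helper22.AE (ee rho nk tk box cz IsSupp ft gph ee_norm ee_add ee_neg ee_zero ee_cont)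
open Pool.Agent.Helper92.EO (hk Lk Li IsKer key ft_half exists_ker kset mem_kset lat_upper nk_neg)
open Pool.Agent.Helper93.EX

private lemma rho_mul99 (H : ℝ → ℝ) (R θ : ℝ) : rho (fun θ => R * H θ) θ = R * rho H θ := by
  have h1 : deriv (fun θ => R * H θ) = fun θ => R * deriv H θ := by
    funext x
    rw [deriv_const_mul_field]
  unfold rho
  rw [h1, deriv_const_mul_field]
  ring

private lemma gph_mul99 (H : ℝ → ℝ) (R : ℝ) (k : ℤ × ℤ) (α : ℝ) : gph (fun θ => R * H θ) k α = R * gph H k α := by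
  unfold gph
  rw [deriv_const_mul_field]
  ring

private lemma W_zero99 {w W : ℝ → ℝ} (hw : IsKer w W) : W 0 = 1 := by
  have h1 := hw.four 0
  have h2 : ∀ u : ℝ, ((w u : ℝ) : ℂ) * ee (-(0 * u)) = ((w u : ℝ) : ℂ) := by
    intro u
    rw [zero_mul, neg_zero, ee_zero, mul_one]
  simp only [h2] at h1
  rw [integral_complex_ofReal, hw.int_one] at h1
  exact_mod_cast h1.symm

private lemma rho_cont99 {H : ℝ → ℝ} (hH : IsSupp H) : Continuous (rho H) := by
  have h1 : ContDiff ℝ 1 (deriv H) := by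
    have h := (contDiff_succ_iff_deriv (n := 1) (f := H)).1 (by
      rw [one_add_one_eq_two]; exact hH.smooth)
    exact h.2.2
  have h2 : Continuous (deriv (deriv H)) := h1.continuous_deriv (le_refl _)
  exact hH.smooth.continuous.add h2

private lemma gph_cont99 {H : ℝ → ℝ} (hH : IsSupp H) (k : ℤ × ℤ) : Continuous (gph H k) := by
  have h1 : ContDiff ℝ 1 (deriv H) := by
    have h := (contDiff_succ_iff_deriv (n := 1) (f := H)).1 (by
      rw [one_add_one_eq_two]; exact hH.smooth)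
    exact h.2.2
  have h2 := h1.continuous
  have h3 := hH.smooth.continuous
  unfold gph
  fun_prop

private lemma Li_cont99 {w W : ℝ → ℝ} (hw : IsKer w W) {H : ℝ → ℝ} (hH : IsSupp H) (K R s : ℝ) (k : ℤ × ℤ) :
    Continuous (Li W H K R s k) := by
  have h1 := rho_cont99 hH
  have h2 := gph_cont99 hH k
  have h3 := hw.smooth.continuous
  have h4 := ee_cont
  unfold Li
  refine Continuous.mul ?_ ?_
  · apply Complex.continuous_ofReal.comp
    fun_prop
  · apply ee_cont.comp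
    fun_prop

private lemma W_le99 {w W : ℝ → ℝ} (hw : IsKer w W) (x : ℝ) : |W x| ≤ 1 := by
  have h1 := hw.four x
  have hi : Integrable w := by
    by_contra hcon
    have h2 := hw.int_one
    rw [integral_undef hcon] at h2
    exact zero_ne_one h2
  have h2 : ‖((W x : ℝ) : ℂ)‖ ≤ 1 := by
    rw [← h1]
    refine (norm_integral_le_integral_norm _).trans ?_
    rw [← hw.int_one]
    refine le_of_eq ?_
    congr 1
    funext u
    rw [norm_mul, ee_norm, mul_one, Complex.norm_real, Real.norm_of_nonneg (hw.nonneg u)]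
  rwa [Complex.norm_real, Real.norm_eq_abs] at h2

/-- the averaged integral tends to the integral without average -/
private lemma Lk_lim99 {w W : ℝ → ℝ} (hw : IsKer w W) {H : ℝ → ℝ} (hH : IsSupp H) (R : ℝ) (k : ℤ × ℤ) :
    Tendsto (fun K : ℕ => Lk W H ((K : ℝ) + 1) R 0 k) atTop (𝓝 (hk (fun θ => R * H θ) k)) := by
  have hr := rho_cont99 hH
  have hg := gph_cont99 hH k
  have e : hk (fun θ => R * H θ) k = ∫ α in (-(π / 2))..(π / 2),
      ((cos α * (R * rho H (tk k + α) + 0) * 1 : ℝ) : ℂ) * ee (-(nk k * (R * gph H k α + 0 * cos α))) := by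
    unfold hk
    refine intervalIntegral.integral_congr fun α _ => ?_
    rw [rho_mul99, gph_mul99]
    congr 2
    · ring
    · ring
  rw [e]
  unfold Lk
  refine intervalIntegral.tendsto_integral_filter_of_dominated_convergence
    (fun α => |cos α * (R * rho H (tk k + α) + 0)|) ?_ ?_ ?_ ?_
  · exact Eventually.of_forall fun K => (Li_cont99 hw hH _ R 0 k).aestronglyMeasurable
  · refine Eventually.of_forall fun K => Eventually.of_forall fun α _ => ?_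
    unfold Li
    rw [norm_mul, ee_norm, mul_one, Complex.norm_real, Real.norm_eq_abs, abs_mul (cos α * (R * rho H (tk k + α) + 0))]
    exact mul_le_of_le_one_right (abs_nonneg _) (W_le99 hw _)
  · apply Continuous.intervalIntegrable
    fun_prop
  · refine Eventually.of_forall fun α _ => ?_
    unfold Li
    refine Tendsto.mul ?_ tendsto_const_nhds
    refine (Complex.continuous_ofReal.tendsto _).comp ?_
    refine Tendsto.mul tendsto_const_nhds ?_
    have h1 : Tendsto (fun K : ℕ => nk k * gph H k α / ((K : ℝ) + 1)) atTop (𝓝 0) := by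
      have h2 := tendsto_one_div_add_atTop_nhds_zero_nat (𝕜 := ℝ)
      have h3 := h2.const_mul (nk k * gph H k α)
      rw [mul_zero] at h3
      refine h3.congr fun K => ?_
      ring
    have h2 := (hw.smooth.continuous.tendsto 0).comp h1
    rw [W_zero99 hw] at h2
    exact h2

/-- the asymptotic value of the half-range integral -/
theorem hk_asym99 {H : ℝ → ℝ} (hH : IsSupp H) {η : ℝ} (hη : 0 < η) :
    ∃ R₁ : ℝ, 1 ≤ R₁ ∧ ∀ R : ℝ, R₁ ≤ R → ∀ k : ℤ × ℤ, k ≠ 0 → nk k ≤ R ^ (1 / 4 : ℝ) →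
      ‖hk (fun θ => R * H θ) k - (((R / nk k) ^ (1 / 2 : ℝ) * sqrt (rho H (tk k)) : ℝ) : ℂ) * ee (1 / 8 - R * (nk k * H (tk k)))‖ ≤
        η * (R / nk k) ^ (1 / 2 : ℝ) := by
  obtain ⟨w, W, hw⟩ := exists_ker
  obtain ⟨R₁, h1, hR₁⟩ := key hw hH hη
  refine ⟨R₁, h1, fun R hR k hk0 hk1 => ?_⟩
  have hR0 : 0 < R := by linarith
  have hlim := Lk_lim99 hw hH R k
  have hlim2 : Tendsto (fun K : ℕ => Pool.Agent.Helper92.EO.mk W H ((K : ℝ) + 1) R k) atTop
      (𝓝 ((((R / nk k) ^ (1 / 2 : ℝ) * sqrt (rho H (tk k)) : ℝ) : ℂ) * ee (1 / 8 - R * (nk k * H (tk k))))) := by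
    unfold Pool.Agent.Helper92.EO.mk
    refine Tendsto.mul ?_ tendsto_const_nhds
    refine (Complex.continuous_ofReal.tendsto _).comp ?_
    have h1 : Tendsto (fun K : ℕ => nk k * H (tk k) / ((K : ℝ) + 1)) atTop (𝓝 0) := by
      have h2 := tendsto_one_div_add_atTop_nhds_zero_nat (𝕜 := ℝ)
      have h3 := h2.const_mul (nk k * H (tk k))
      rw [mul_zero] at h3
      refine h3.congr fun K => ?_
      ring
    have h2 := (hw.smooth.continuous.tendsto 0).comp h1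
    rw [W_zero99 hw] at h2
    have h3 := h2.const_mul ((R / nk k) ^ (1 / 2 : ℝ) * sqrt (rho H (tk k)))
    rw [mul_one] at h3
    exact h3
  refine le_of_tendsto (hlim.sub hlim2).norm (Eventually.of_forall fun K => ?_)
  refine hR₁ R ((K : ℝ) + 1) 0 hR ?_ ?_ k hk0 hk1
  · have : (0 : ℝ) ≤ K := Nat.cast_nonneg K
    linarith
  · rw [abs_zero]
    positivity

theorem lo_neg99 {N : ℕ} {k : ℤ × ℤ} (h : k ∈ lo N) : -k ∈ lo N := by
  rw [mem_lo] at h ⊢
  refine ⟨neg_ne_zero.2 h.1, ?_⟩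
  have h2 := h.2
  unfold sn at h2 ⊢
  simpa using h2

/-- the low frequencies of the Poisson formula as a real sum -/
theorem low_im99 {G : ℝ → ℝ} (hG : IsSupp G) (N : ℕ) (c : ℝ × ℝ) :
    ∑ k ∈ lo N, ft G k * ee (-((k.1 : ℝ) * c.1 + (k.2 : ℝ) * c.2)) =
      ((∑ k ∈ lo N, -(1 / (π * nk k)) * (hk G k * ee (-((k.1 : ℝ) * c.1 + (k.2 : ℝ) * c.2))).im : ℝ) : ℂ) := by
  have h1 : ∀ k ∈ lo N, ft G k * ee (-((k.1 : ℝ) * c.1 + (k.2 : ℝ) * c.2)) =
      -(1 / (2 * π * Complex.I * (nk k : ℂ))) * (hk G k * ee (-((k.1 : ℝ) * c.1 + (k.2 : ℝ) * c.2))) +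
      (1 / (2 * π * Complex.I * (nk k : ℂ))) * ((starRingEnd ℂ) (hk G (-k)) * ee (-((k.1 : ℝ) * c.1 + (k.2 : ℝ) * c.2))) := by
    intro k hkm
    rw [ft_half hG (mem_lo.1 hkm).1]
    ring
  rw [Finset.sum_congr rfl h1, Finset.sum_add_distrib]
  have h2 : ∑ k ∈ lo N, (1 / (2 * π * Complex.I * (nk k : ℂ))) * ((starRingEnd ℂ) (hk G (-k)) * ee (-((k.1 : ℝ) * c.1 + (k.2 : ℝ) * c.2))) =
      ∑ k ∈ lo N, (1 / (2 * π * Complex.I * (nk k : ℂ))) * (starRingEnd ℂ) (hk G k * ee (-((k.1 : ℝ) * c.1 + (k.2 : ℝ) * c.2))) := by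
    refine Finset.sum_bij' (fun k _ => -k) (fun k _ => -k) (fun k hk => lo_neg99 hk) (fun k hk => lo_neg99 hk)
      (fun k _ => neg_neg k) (fun k _ => neg_neg k) ?_
    intro k _
    rw [nk_neg, map_mul, ← ee_neg]
    congr 3
    simp only [Prod.fst_neg, Prod.snd_neg]
    push_cast
    ring
  rw [h2, ← Finset.sum_add_distrib]
  push_cast
  refine Finset.sum_congr rfl fun k hkm => ?_
  obtain ⟨z, hz⟩ : ∃ z : ℂ, z = hk G k * ee (-((k.1 : ℝ) * c.1 + (k.2 : ℝ) * c.2)) := ⟨_, rfl⟩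
  rw [← hz]
  have hn : (nk k : ℂ) ≠ 0 := by
    have := Pool.Agent.Helper22.AE.nk_pos (mem_lo.1 hkm).1
    exact_mod_cast this.ne'
  have hp : (π : ℂ) ≠ 0 := by exact_mod_cast Real.pi_ne_zero
  have h3 : (starRingEnd ℂ) z = z - 2 * Complex.I * (z.im : ℂ) := by
    apply Complex.ext
    · simp
    · simp
      ring
  rw [h3]
  field_simp
  ring

theorem ee_im99 (x : ℝ) : (ee x).im = sin (2 * π * x) := by
  unfold ee
  exact Complex.exp_ofReal_mul_I_im _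

theorem nk_le_sn99 (k : ℤ × ℤ) : nk k ≤ 2 * (sn k : ℝ) := by
  have h1 : nk k ≤ |(k.1 : ℝ)| + |(k.2 : ℝ)| := Complex.norm_le_abs_re_add_abs_im (cz k)
  have h2 : |(k.1 : ℝ)| = (k.1.natAbs : ℝ) := by
    rw [Nat.cast_natAbs]
    push_cast
    rfl
  have h3 : |(k.2 : ℝ)| = (k.2.natAbs : ℝ) := by
    rw [Nat.cast_natAbs]
    push_cast
    rfl
  have h4 : (k.1.natAbs : ℝ) ≤ (sn k : ℝ) := by
    exact_mod_cast (le_max_left _ _ : k.1.natAbs ≤ max k.1.natAbs k.2.natAbs)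
  have h5 : (k.2.natAbs : ℝ) ≤ (sn k : ℝ) := by
    exact_mod_cast (le_max_right _ _ : k.2.natAbs ≤ max k.1.natAbs k.2.natAbs)
  linarith

theorem nk_lo99 {N : ℕ} {k : ℤ × ℤ} (h : k ∈ lo N) : nk k ≤ 2 * (N : ℝ) := by
  have h1 := nk_le_sn99 k
  have h2 : (sn k : ℝ) ≤ N := by exact_mod_cast (mem_lo.1 h).2.le
  linarith

/-- the sum of the amplitudes -/
theorem lat99 : ∃ C : ℝ, 0 < C ∧ ∀ N : ℕ, 1 ≤ N → ∑ k ∈ lo N, nk k ^ (-(3 / 2) : ℝ) ≤ C * sqrt N := by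
  obtain ⟨C, hC, h⟩ := lat_upper
  refine ⟨2 * C + 1, by linarith, fun N hN => ?_⟩
  have hN1 : (1 : ℝ) ≤ N := by exact_mod_cast hN
  have h1 := h (2 * (N : ℝ)) (by linarith)
  have h2 : lo N ⊆ kset (2 * (N : ℝ)) := by
    intro k hk
    rw [mem_kset]
    exact ⟨(mem_lo.1 hk).1, nk_lo99 hk⟩
  have h3 : ∑ k ∈ lo N, nk k ^ (-(3 / 2) : ℝ) ≤ ∑ k ∈ kset (2 * (N : ℝ)), nk k ^ (-(3 / 2) : ℝ) :=
    Finset.sum_le_sum_of_subset_of_nonneg h2 fun k _ _ => Real.rpow_nonneg (norm_nonneg _) _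
  have h4 : (2 * (N : ℝ)) ^ (1 / 2 : ℝ) ≤ 2 * sqrt N := by
    rw [← Real.sqrt_eq_rpow, Real.sqrt_mul (by norm_num)]
    refine mul_le_mul_of_nonneg_right ?_ (Real.sqrt_nonneg _)
    rw [Real.sqrt_le_left (by norm_num)]
    norm_num
  have h5 := mul_le_mul_of_nonneg_left h4 hC
  have h6 := Real.sqrt_nonneg (N : ℝ)
  linarith

private lemma main_term99 {H : ℝ → ℝ} {R : ℝ} (hR : 0 < R) {k : ℤ × ℤ} (hk0 : k ≠ 0) (c : ℝ × ℝ) :
    -(1 / (π * nk k)) * ((((R / nk k) ^ (1 / 2 : ℝ) * sqrt (rho H (tk k)) : ℝ) : ℂ) * ee (1 / 8 - R * (nk k * H (tk k))) *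
      ee (-((k.1 : ℝ) * c.1 + (k.2 : ℝ) * c.2))).im =
    sqrt R * (1 / π * (ak H k * cos (2 * π * (R * (nk k * H (tk k)) + ((k.1 : ℝ) * c.1 + (k.2 : ℝ) * c.2)) - 3 * π / 4))) := by
  have hn := Pool.Agent.Helper22.AE.nk_pos hk0
  rw [mul_assoc, ← ee_add, Complex.im_ofReal_mul, ee_im99]
  obtain ⟨x, hx⟩ : ∃ x : ℝ, x = R * (nk k * H (tk k)) + ((k.1 : ℝ) * c.1 + (k.2 : ℝ) * c.2) := ⟨_, rfl⟩
  have e1 : 2 * π * (1 / 8 - R * (nk k * H (tk k)) + -((k.1 : ℝ) * c.1 + (k.2 : ℝ) * c.2)) = -(2 * π * x - 3 * π / 4 + π / 2) := by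
    rw [hx]
    ring
  rw [e1, ← hx, Real.sin_neg, Real.sin_add_pi_div_two]
  have e2 : (R / nk k) ^ (1 / 2 : ℝ) = sqrt R * (nk k * nk k ^ (-(3 / 2) : ℝ)) := by
    rw [Real.div_rpow hR.le hn.le, ← Real.sqrt_eq_rpow, div_eq_mul_inv, ← Real.rpow_neg hn.le]
    congr 1
    nth_rewrite 2 [← Real.rpow_one (nk k)]
    rw [← Real.rpow_add hn]
    norm_num
  rw [e2]
  unfold ak
  field_simp

/-- the low frequencies of `R · H` -/
theorem low_main99 {H : ℝ → ℝ} (hH : IsSupp H) {η : ℝ} (hη : 0 < η) :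
    ∃ R₁ : ℝ, 1 ≤ R₁ ∧ ∀ R : ℝ, R₁ ≤ R → ∀ N : ℕ, 1 ≤ N → 2 * (N : ℝ) ≤ R ^ (1 / 4 : ℝ) → ∀ c : ℝ × ℝ,
      ‖∑ k ∈ lo N, ft (fun θ => R * H θ) k * ee (-((k.1 : ℝ) * c.1 + (k.2 : ℝ) * c.2)) - ((sqrt R * Mx H N R c : ℝ) : ℂ)‖ ≤
        η * (sqrt R * sqrt N) := by
  obtain ⟨C, hC, hlat⟩ := lat99
  obtain ⟨R₁, h1, hR₁⟩ := hk_asym99 hH (η := η / C) (by positivity)
  refine ⟨R₁, h1, fun R hR N hN hNR c => ?_⟩
  have hR0 : 0 < R := by linarith
  have hG : IsSupp (fun θ => R * H θ) := by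
    have h := Pool.Agent.Helper22.LP.rot_isSupp hH hR0 0
    simpa using h
  rw [low_im99 hG, mx_eq99, ← Complex.ofReal_sub, Complex.norm_real, Real.norm_eq_abs, Finset.mul_sum, ← Finset.sum_sub_distrib]
  refine (Finset.abs_sum_le_sum_abs _ _).trans ?_
  have h2 : ∀ k ∈ lo N, |-(1 / (π * nk k)) * (hk (fun θ => R * H θ) k * ee (-((k.1 : ℝ) * c.1 + (k.2 : ℝ) * c.2))).im -
      sqrt R * (1 / π * (ak H k * cos (2 * π * (R * (nk k * H (tk k)) + ((k.1 : ℝ) * c.1 + (k.2 : ℝ) * c.2)) - 3 * π / 4)))| ≤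
      η / C * (sqrt R * nk k ^ (-(3 / 2) : ℝ)) := by
    intro k hkm
    have hk0 := (mem_lo.1 hkm).1
    have hn := Pool.Agent.Helper22.AE.nk_pos hk0
    have h3 := hR₁ R hR k hk0 ((nk_lo99 hkm).trans hNR)
    rw [← main_term99 hR0 hk0 c, ← mul_sub, ← Complex.sub_im, ← sub_mul, abs_mul]
    have e2 : (R / nk k) ^ (1 / 2 : ℝ) = sqrt R * (nk k * nk k ^ (-(3 / 2) : ℝ)) := by
      rw [Real.div_rpow hR0.le hn.le, ← Real.sqrt_eq_rpow, div_eq_mul_inv, ← Real.rpow_neg hn.le]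
      congr 1
      nth_rewrite 2 [← Real.rpow_one (nk k)]
      rw [← Real.rpow_add hn]
      norm_num
    have h4 : |((hk (fun θ => R * H θ) k - (((R / nk k) ^ (1 / 2 : ℝ) * sqrt (rho H (tk k)) : ℝ) : ℂ) * ee (1 / 8 - R * (nk k * H (tk k)))) *
        ee (-((k.1 : ℝ) * c.1 + (k.2 : ℝ) * c.2))).im| ≤ η / C * (sqrt R * (nk k * nk k ^ (-(3 / 2) : ℝ))) := by
      rw [← e2]
      refine (Complex.abs_im_le_norm _).trans ?_
      rw [norm_mul, ee_norm, mul_one]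
      exact h3
    have h5 : |-(1 / (π * nk k))| = 1 / (π * nk k) := by
      rw [abs_neg, abs_of_pos (by positivity)]
    rw [h5]
    refine (mul_le_mul_of_nonneg_left h4 (by positivity)).trans ?_
    have h6 : 1 / (π * nk k) * (η / C * (sqrt R * (nk k * nk k ^ (-(3 / 2) : ℝ)))) = 1 / π * (η / C * (sqrt R * nk k ^ (-(3 / 2) : ℝ))) := by
      field_simp
    rw [h6]
    have h7 : 1 / π ≤ 1 := by
      rw [div_le_one Real.pi_pos]
      linarith [Real.pi_gt_three]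
    have h8 : 0 ≤ η / C * (sqrt R * nk k ^ (-(3 / 2) : ℝ)) := by positivity
    exact mul_le_of_le_one_left h8 h7
  refine (Finset.sum_le_sum h2).trans ?_
  rw [← Finset.mul_sum, ← Finset.mul_sum]
  have h3 := mul_le_mul_of_nonneg_left (hlat N hN) (Real.sqrt_nonneg R)
  have h4 := mul_le_mul_of_nonneg_left h3 (show 0 ≤ η / C by positivity)
  refine h4.trans (le_of_eq ?_)
  field_simp

end Pool.Agent.Helper99.EX
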