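import Pool.Agent.Helper93.EX.Defs
import Pool.Agent.Helper93.AO.DefsL
import Pool.Agent.Helper29.AO.GlSum

/-!
# EX, block T (the truncated formula), part F: the sum of the bounds `gl n p` over `2^n ≥ 2^a √p`
-/

open MeasureTheory Real Set Filter Topology

set_option autoImplicit false

namespace Pool.Agent.Helper99.EX

open Pool.Agent.Helper93.AO (gl gg)

/-- the summable majorant -/
noncomputable def u99 (i : ℕ) : ℝ := 2 * ((i : ℝ) + 1) * (1 / sqrt 2) ^ i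

theorem u_nn99 (i : ℕ) : 0 ≤ u99 i := by
  unfold u99
  positivity

theorem u_sum99 : Summable u99 := by
  have hq : 1 < sqrt 2 := by
    rw [Real.lt_sqrt (by norm_num)]
    norm_num
  have hr : ‖(1 / sqrt 2 : ℝ)‖ < 1 := by
    rw [Real.norm_of_nonneg (by positivity), div_lt_one (by positivity)]
    exact hq
  have h1 := summable_pow_mul_geometric_of_norm_lt_one 1 hr
  have h2 := summable_geometric_of_norm_lt_one hr
  have h3 := (h1.add h2).mul_left 2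
  refine h3.congr fun i => ?_
  unfold u99
  rw [pow_one]
  ring

/-- the tails of the majorant -/
noncomputable def s99 (a : ℕ) : ℝ := ∑' i : ℕ, u99 (i + a)

theorem s_nn99 (a : ℕ) : 0 ≤ s99 a := tsum_nonneg fun _ => u_nn99 _

theorem s_lim99 : Tendsto s99 atTop (𝓝 0) := tendsto_sum_nat_add u99

private lemma geo99 {i m : ℕ} (h : i ≤ m) : ∑ j ∈ Finset.Ico i m, (1 / 2 : ℝ) ^ j ≤ 2 * (1 / 2) ^ i := by
  have h1 : ∑ j ∈ Finset.Ico i m, (1 / 2 : ℝ) ^ j = 2 * (1 / 2) ^ i - 2 * (1 / 2) ^ m := by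
    induction m, h using Nat.le_induction with
    | base => simp
    | succ m hm ih =>
      rw [Finset.sum_Ico_succ_top hm, ih, pow_succ]
      ring
  rw [h1]
  have : (0 : ℝ) < (1 / 2) ^ m := by positivity
  linarith

/-- one term -/
private lemma one99 {p : ℕ} (hp : 1 ≤ p) (i : ℕ) :
    (2 : ℝ) ^ (-(3 / 2) * ((Nat.log 2 p / 2 + i : ℕ) : ℝ) : ℝ) * gl (Nat.log 2 p / 2 + i) p ≤ u99 i * (p : ℝ) ^ (1 / 4 : ℝ) := by
  have hp0 : (0 : ℝ) < p := by exact_mod_cast hp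
  obtain ⟨L, hL⟩ : ∃ L : ℕ, L = Nat.log 2 p / 2 := ⟨_, rfl⟩
  rw [← hL]
  obtain ⟨q, hq⟩ : ∃ q : ℝ, q = sqrt 2 := ⟨_, rfl⟩
  obtain ⟨P, hP⟩ : ∃ P : ℝ, P = (p : ℝ) ^ (1 / 4 : ℝ) := ⟨_, rfl⟩
  have hq0 : 0 < q := by
    rw [hq]
    positivity
  have hq2 : q ^ 2 = 2 := by
    rw [hq]
    exact Real.sq_sqrt (by norm_num)
  have hqle : q ≤ 2 := by nlinarith
  have hP0 : 0 < P := by
    rw [hP]
    exact Real.rpow_pos_of_pos hp0 _
  have hP4 : P ^ 4 = p := by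
    rw [hP, ← Real.rpow_natCast, ← Real.rpow_mul hp0.le]
    norm_num
  have hP2 : sqrt (p : ℝ) = P ^ 2 := by
    rw [Real.sqrt_eq_iff_mul_self_eq hp0.le (by positivity), ← hP4]
    ring
  -- the bounds for q^L
  have hlo : q ^ L ≤ P := by
    have h1 : 2 ^ (2 * L) ≤ p := by
      have h2 : 2 ^ (Nat.log 2 p) ≤ p := Nat.pow_log_le_self 2 (by omega)
      have h3 : 2 ^ (2 * L) ≤ 2 ^ (Nat.log 2 p) := Nat.pow_le_pow_right (by norm_num) (by omega)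
      omega
    have h2 : (2 : ℝ) ^ (2 * L) ≤ p := by exact_mod_cast h1
    by_contra hcon
    push Not at hcon
    have h3 : P ^ 4 < (q ^ L) ^ 4 := pow_lt_pow_left₀ hcon hP0.le (by norm_num)
    have h4 : (q ^ L) ^ 4 = 2 ^ (2 * L) := by
      rw [← pow_mul, show L * 4 = 2 * (2 * L) by ring, pow_mul, hq2]
    rw [h4, hP4] at h3
    linarith
  have hhi : P ≤ q * q ^ L := by
    have h1 : p < 2 ^ (2 * L + 2) := by
      have h2 : p < 2 ^ (Nat.log 2 p + 1) := Nat.lt_pow_succ_log_self (by norm_num) p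
      have h3 : 2 ^ (Nat.log 2 p + 1) ≤ 2 ^ (2 * L + 2) := Nat.pow_le_pow_right (by norm_num) (by omega)
      omega
    have h2 : (p : ℝ) < (2 : ℝ) ^ (2 * L + 2) := by exact_mod_cast h1
    by_contra hcon
    push Not at hcon
    have h3 : (q * q ^ L) ^ 4 < P ^ 4 := pow_lt_pow_left₀ hcon (by positivity) (by norm_num)
    have h4 : (q * q ^ L) ^ 4 = 2 ^ (2 * L + 2) := by
      rw [← pow_succ', ← pow_mul, show (L + 1) * 4 = 2 * (2 * L + 2) by ring, pow_mul, hq2]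
    rw [h4, hP4] at h3
    linarith
  -- the two bounds
  have hpow : (2 : ℝ) ^ (-(3 / 2) * ((L + i : ℕ) : ℝ) : ℝ) = (q ^ (L + i))⁻¹ ^ 3 := by
    rw [hq, Real.sqrt_eq_rpow, ← Real.rpow_natCast ((2 : ℝ) ^ (1 / 2 : ℝ)), ← Real.rpow_mul (by norm_num),
      ← Real.rpow_neg (by norm_num), ← Real.rpow_natCast, ← Real.rpow_mul (by norm_num)]
    congr 1
    push_cast
    ring
  have h2n : (2 : ℝ) ^ (L + i) = (q ^ (L + i)) ^ 2 := by
    rw [← pow_mul, mul_comm (L + i) 2, pow_mul, hq2]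
  have h4n : (4 : ℝ) ^ (L + i) = (q ^ (L + i)) ^ 4 := by
    rw [← pow_mul, show (L + i) * 4 = 2 * 2 * (L + i) by ring, pow_mul, pow_mul, hq2]
    norm_num
  obtain ⟨Y, hY⟩ : ∃ Y : ℝ, Y = q ^ (L + i) := ⟨_, rfl⟩
  have hY0 : 0 < Y := by
    rw [hY]
    positivity
  rw [hpow, gl, h2n, h4n, ← hY, Finset.mul_sum, hP2, ← Finset.sum_range_add_sum_Ico _ (show i ≤ L + i + 1 by omega)]
  have b1 : ∑ j ∈ Finset.range i, Y⁻¹ ^ 3 * min (Y ^ 4 / 2 ^ j) (Y ^ 2 * P ^ 2) ≤ i * (P ^ 2 / Y) := by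
    calc ∑ j ∈ Finset.range i, Y⁻¹ ^ 3 * min (Y ^ 4 / 2 ^ j) (Y ^ 2 * P ^ 2) ≤ ∑ j ∈ Finset.range i, P ^ 2 / Y := by
          refine Finset.sum_le_sum fun j _ => ?_
          calc Y⁻¹ ^ 3 * min (Y ^ 4 / 2 ^ j) (Y ^ 2 * P ^ 2) ≤ Y⁻¹ ^ 3 * (Y ^ 2 * P ^ 2) := by
                gcongr
                exact min_le_right _ _
            _ = P ^ 2 / Y := by field_simp
      _ = i * (P ^ 2 / Y) := by
          rw [Finset.sum_const, Finset.card_range, nsmul_eq_mul]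
  have b2 : ∑ j ∈ Finset.Ico i (L + i + 1), Y⁻¹ ^ 3 * min (Y ^ 4 / 2 ^ j) (Y ^ 2 * P ^ 2) ≤ Y * (2 * (1 / 2) ^ i) := by
    calc ∑ j ∈ Finset.Ico i (L + i + 1), Y⁻¹ ^ 3 * min (Y ^ 4 / 2 ^ j) (Y ^ 2 * P ^ 2) ≤ ∑ j ∈ Finset.Ico i (L + i + 1), Y * (1 / 2) ^ j := by
          refine Finset.sum_le_sum fun j _ => ?_
          calc Y⁻¹ ^ 3 * min (Y ^ 4 / 2 ^ j) (Y ^ 2 * P ^ 2) ≤ Y⁻¹ ^ 3 * (Y ^ 4 / 2 ^ j) := by
                gcongr
                exact min_le_left _ _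
            _ = Y * (1 / 2) ^ j := by
                rw [one_div_pow]
                field_simp
      _ = Y * ∑ j ∈ Finset.Ico i (L + i + 1), (1 / 2 : ℝ) ^ j := by rw [Finset.mul_sum]
      _ ≤ Y * (2 * (1 / 2) ^ i) := mul_le_mul_of_nonneg_left (geo99 (by omega)) hY0.le
  have hYe : Y = q ^ L * q ^ i := by rw [hY, pow_add]
  have hqi : 0 < q ^ i := by positivity
  have hqL : 0 < q ^ L := by positivity
  have c1 : P ^ 2 / Y ≤ q * P * (1 / q) ^ i := by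
    rw [hYe, div_le_iff₀ (by positivity), one_div, inv_pow]
    have e : q * P * (q ^ i)⁻¹ * (q ^ L * q ^ i) = P * (q * q ^ L) := by field_simp
    rw [e, pow_two]
    exact mul_le_mul_of_nonneg_left hhi hP0.le
  have c2 : Y * (2 * (1 / 2) ^ i) ≤ 2 * P * (1 / q) ^ i := by
    have e : (1 / 2 : ℝ) ^ i = (1 / q) ^ i * (1 / q) ^ i := by
      rw [← mul_pow, div_mul_div_comm, one_mul, ← pow_two, hq2]
    rw [hYe, e]
    have e2 : q ^ L * q ^ i * (2 * ((1 / q) ^ i * (1 / q) ^ i)) = 2 * q ^ L * (1 / q) ^ i := by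
      rw [one_div, inv_pow]
      field_simp
    rw [e2]
    gcongr
  have d1 := mul_le_mul_of_nonneg_left c1 (Nat.cast_nonneg i : (0 : ℝ) ≤ i)
  have hP1 : 0 ≤ P * (1 / q) ^ i := by positivity
  have d2 : (i : ℝ) * (q * P * (1 / q) ^ i) ≤ i * (2 * (P * (1 / q) ^ i)) := by
    have : q * P * (1 / q) ^ i = q * (P * (1 / q) ^ i) := by ring
    rw [this]
    exact mul_le_mul_of_nonneg_left (mul_le_mul_of_nonneg_right hqle hP1) (Nat.cast_nonneg i)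
  have e3 : u99 i * (p : ℝ) ^ (1 / 4 : ℝ) = i * (2 * (P * (1 / q) ^ i)) + 2 * P * (1 / q) ^ i := by
    unfold u99
    rw [← hP, ← hq]
    ring
  rw [e3]
  linarith

theorem gl_tail99 (a m : ℕ) {p : ℕ} (hp : 1 ≤ p) :
    ∑ n ∈ Finset.Ico (Nat.log 2 p / 2 + a) m, (2 : ℝ) ^ (-(3 / 2) * n : ℝ) * gl n p ≤ s99 a * (p : ℝ) ^ (1 / 4 : ℝ) := by
  rw [Finset.sum_Ico_eq_sum_range]
  have hP0 : 0 ≤ (p : ℝ) ^ (1 / 4 : ℝ) := by positivity
  calc ∑ k ∈ Finset.range (m - (Nat.log 2 p / 2 + a)), (2 : ℝ) ^ (-(3 / 2) * ((Nat.log 2 p / 2 + a + k : ℕ) : ℝ) : ℝ) * gl (Nat.log 2 p / 2 + a + k) p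
      ≤ ∑ k ∈ Finset.range (m - (Nat.log 2 p / 2 + a)), u99 (k + a) * (p : ℝ) ^ (1 / 4 : ℝ) := by
        refine Finset.sum_le_sum fun k _ => ?_
        have h := one99 hp (k + a)
        have e : Nat.log 2 p / 2 + a + k = Nat.log 2 p / 2 + (k + a) := by ring
        rw [e]
        exact h
    _ = (∑ k ∈ Finset.range (m - (Nat.log 2 p / 2 + a)), u99 (k + a)) * (p : ℝ) ^ (1 / 4 : ℝ) := by rw [Finset.sum_mul]
    _ ≤ s99 a * (p : ℝ) ^ (1 / 4 : ℝ) := by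
        refine mul_le_mul_of_nonneg_right ?_ hP0
        exact Summable.sum_le_tsum _ (fun _ _ => u_nn99 _) ((summable_nat_add_iff a).2 u_sum99)

end Pool.Agent.Helper99.EX
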