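import Pool.Agent.Helper99.EX.TruncB
import Pool.Agent.Helper99.EX.TruncC
import Pool.Agent.Helper99.EX.TruncD
import Pool.Agent.Helper99.EX.TruncE
import Pool.Agent.Helper99.EX.TruncF

/-!
# EX, block T (the truncated formula), part G: the estimate for one oval and one scale
-/

open MeasureTheory Real Set Filter Topology

set_option autoImplicit false

namespace Pool.Agent.Helper99.EX

open Pool.Agent.Helper22.AE (ee rho nk tk box cz IsSupp IsBump ft fhat dom area dom_compact area_scale exists_bump ee_norm)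
open Pool.Agent.Helper22.AC (cntc smcc le_smcc smcc_le)
open Pool.Agent.Helper92.GC (dt sqa)
open Pool.Agent.Helper93.AO (gl gg SS)
open Pool.Agent.Helper93.EX

private lemma mul_supp_g99 {G : ℝ → ℝ} (hG : IsSupp G) {r : ℝ} (hr : 0 < r) : IsSupp (fun θ => r * G θ) := by
  have := Pool.Agent.Helper22.LP.rot_isSupp hG hr 0
  simpa using this

private theorem area_mono99 {A B : ℝ → ℝ} (hB : IsSupp B) (h : ∀ θ, A θ ≤ B θ) : area A ≤ area B :=
  ENNReal.toReal_mono (dom_compact hB).measure_lt_top.ne (measure_mono fun _ hp θ => (hp θ).trans (h θ))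

private lemma rho_mul_g99 (H : ℝ → ℝ) (R θ : ℝ) : rho (fun θ => R * H θ) θ = R * rho H θ := by
  have h1 : deriv (fun θ => R * H θ) = fun θ => R * deriv H θ := by
    funext x
    rw [deriv_const_mul_field]
  unfold rho
  rw [h1, deriv_const_mul_field]
  ring

private lemma gl_nn99 (n p : ℕ) : 0 ≤ gl n p :=
  Finset.sum_nonneg fun _ _ => le_min (by positivity) (by positivity)

private lemma gg_le99 {C : ℝ} (hC : 1 ≤ C) (n p : ℕ) :
    gg C n p ≤ C * gl n p + 2 * (2 : ℝ) ^ (3 / 2 * n - p / 1000 : ℝ) := by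
  have h1 : 0 ≤ C * gl n p := mul_nonneg (by linarith) (gl_nn99 n p)
  have h2 : (0 : ℝ) ≤ 2 * (2 : ℝ) ^ (3 / 2 * n - p / 1000 : ℝ) := by positivity
  unfold gg
  split_ifs <;> linarith only [h2, h1]

/-- the sum of the bounds of the blocks -/
private lemma sum_gg99 {C : ℝ} (hC : 1 ≤ C) {p : ℕ} (hp : 1 ≤ p) (a m : ℕ) (hm : (m : ℝ) ≤ 2 * p) :
    ∑ n ∈ Finset.Ico (Nat.log 2 p / 2 + a) m, (2 : ℝ) ^ (-(3 / 2) * n : ℝ) * gg C n p ≤
      C * (s99 a * (p : ℝ) ^ (1 / 4 : ℝ)) + 4 * (p * (2 : ℝ) ^ (-((p : ℝ) / 4000))) := by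
  have hpr : (1 : ℝ) ≤ p := by exact_mod_cast hp
  have hw : (2 : ℝ) ^ (-((p : ℝ) / 1000)) ≤ (2 : ℝ) ^ (-((p : ℝ) / 4000)) :=
    Real.rpow_le_rpow_of_exponent_le (by norm_num) (by linarith only [hpr])
  have hw0 : (0 : ℝ) < (2 : ℝ) ^ (-((p : ℝ) / 4000)) := by positivity
  have hw1 : (0 : ℝ) < (2 : ℝ) ^ (-((p : ℝ) / 1000)) := by positivity
  calc ∑ n ∈ Finset.Ico (Nat.log 2 p / 2 + a) m, (2 : ℝ) ^ (-(3 / 2) * n : ℝ) * gg C n p
      ≤ ∑ n ∈ Finset.Ico (Nat.log 2 p / 2 + a) m, (C * ((2 : ℝ) ^ (-(3 / 2) * n : ℝ) * gl n p) +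
          2 * (2 : ℝ) ^ (-((p : ℝ) / 1000))) := by
        refine Finset.sum_le_sum fun n _ => ?_
        have h0 : (0 : ℝ) ≤ (2 : ℝ) ^ (-(3 / 2) * n : ℝ) := by positivity
        have h1 := mul_le_mul_of_nonneg_left (gg_le99 hC n p) h0
        have h2 : (2 : ℝ) ^ (-(3 / 2) * n : ℝ) * (2 : ℝ) ^ (3 / 2 * n - p / 1000 : ℝ) =
            (2 : ℝ) ^ (-((p : ℝ) / 1000)) := by
          rw [← Real.rpow_add (by norm_num)]
          congr 1
          ring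
        calc _ ≤ _ := h1
          _ = C * ((2 : ℝ) ^ (-(3 / 2) * n : ℝ) * gl n p) + 2 * ((2 : ℝ) ^ (-(3 / 2) * n : ℝ) *
              (2 : ℝ) ^ (3 / 2 * n - p / 1000 : ℝ)) := by ring
          _ = _ := by rw [h2]
    _ = C * ∑ n ∈ Finset.Ico (Nat.log 2 p / 2 + a) m, (2 : ℝ) ^ (-(3 / 2) * n : ℝ) * gl n p +
          ((m - (Nat.log 2 p / 2 + a) : ℕ) : ℝ) * (2 * (2 : ℝ) ^ (-((p : ℝ) / 1000))) := by
        rw [Finset.sum_add_distrib, ← Finset.mul_sum, Finset.sum_const, Nat.card_Ico,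
          nsmul_eq_mul]
    _ ≤ _ := by
        have h1 := mul_le_mul_of_nonneg_left (gl_tail99 a m hp) (by linarith : (0 : ℝ) ≤ C)
        have h2 : ((m - (Nat.log 2 p / 2 + a) : ℕ) : ℝ) ≤ 2 * p := by
          have : ((m - (Nat.log 2 p / 2 + a) : ℕ) : ℝ) ≤ m := by exact_mod_cast Nat.sub_le _ _
          linarith only [hm, this]
        have h3 := mul_le_mul_of_nonneg_right h2 (by positivity : (0 : ℝ) ≤ 2 * (2 : ℝ) ^ (-((p : ℝ) / 1000)))
        have h4 : 2 * (p : ℝ) * (2 * (2 : ℝ) ^ (-((p : ℝ) / 1000))) ≤ 2 * (p : ℝ) * (2 * (2 : ℝ) ^ (-((p : ℝ) / 4000))) := by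
          gcongr
        linarith only [h1, h3, h4]

/-- the size of the cut -/
theorem NN_sq99 {p : ℕ} (hp : 1 ≤ p) (a : ℕ) : ((NN a p : ℕ) : ℝ) ^ 2 ≤ 4 ^ a * p := by
  have h1 : 2 ^ (2 * (Nat.log 2 p / 2)) ≤ p := by
    have h2 : 2 ^ (Nat.log 2 p) ≤ p := Nat.pow_log_le_self 2 (by omega)
    have h3 : 2 ^ (2 * (Nat.log 2 p / 2)) ≤ 2 ^ (Nat.log 2 p) := Nat.pow_le_pow_right (by norm_num) (by omega)
    omega
  have h2 : (2 : ℝ) ^ (2 * (Nat.log 2 p / 2)) ≤ p := by exact_mod_cast h1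
  unfold NN
  push_cast
  have e : ((2 : ℝ) ^ (Nat.log 2 p / 2 + a)) ^ 2 = 4 ^ a * 2 ^ (2 * (Nat.log 2 p / 2)) := by
    rw [pow_add, mul_pow, ← pow_mul, ← pow_mul, mul_comm a 2, pow_mul 2 2 a]
    norm_num
    rw [mul_comm (Nat.log 2 p / 2) 2]
    ring
  rw [e]
  exact mul_le_mul_of_nonneg_left h2 (by positivity)

theorem n0_le99 {p a : ℕ} (hp : 1 ≤ p) (ha : 4 * a ≤ p) : Nat.log 2 p / 2 + a ≤ (p + 1) / 2 := by
  have h1 : 2 ^ (2 * (Nat.log 2 p / 2)) ≤ p := by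
    have h2 : 2 ^ (Nat.log 2 p) ≤ p := Nat.pow_log_le_self 2 (by omega)
    have h3 : 2 ^ (2 * (Nat.log 2 p / 2)) ≤ 2 ^ (Nat.log 2 p) := Nat.pow_le_pow_right (by norm_num) (by omega)
    omega
  obtain ⟨L, hL⟩ : ∃ L : ℕ, L = Nat.log 2 p / 2 := ⟨_, rfl⟩
  rw [← hL] at h1 ⊢
  have h2 : 4 * L ≤ 2 ^ (2 * L) := by
    clear h1 hL
    induction L with
    | zero => simp
    | succ L ih =>
      have e : 2 ^ (2 * (L + 1)) = 4 * 2 ^ (2 * L) := by
        rw [show 2 * (L + 1) = 2 * L + 2 by ring, pow_add]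
        ring
      have h3 : 1 ≤ 2 ^ (2 * L) := Nat.one_le_two_pow
      omega
  omega

/-- the estimate for one scale -/
theorem est99 {M : ℝ} (hM : 2 ≤ M) {C K : ℝ} (hC : 1 ≤ C) (hK : 0 ≤ K) : ∃ (C1 C2 : ℝ) (P : ℕ), 0 ≤ C1 ∧ 0 ≤ C2 ∧ 1 ≤ P ∧ ∀ p : ℕ, P ≤ p → ∀ G H : ℝ → ℝ, IsSupp G → IsSupp H →
    (∀ t, 1 / M ≤ G t) → (∀ t, G t ≤ M) → (∀ t, rho G t ≤ M) → (∀ t, |G t - H t| ≤ K / 4 ^ p) →
    (∀ n : ℕ, (n : ℝ) ≤ (1 / 2 + 1 / 1000) * p → ∀ (α r : ℝ) (c : ℝ × ℝ) (i : ℕ), |α| ≤ 1 → 2 ^ p / 4 ≤ r → r ≤ 16 * 2 ^ p → i = 1 ∨ i = 2 →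
      ‖SS G idf99 α r c i (2 ^ n)‖ ≤ gg C n p) →
    ∀ a : ℕ, 4 * a ≤ p → ∀ R ∈ Icc ((2 : ℝ) ^ p) (2 ^ (p + 1)), ∀ (c : ℝ × ℝ) (x : ℝ),
      |cntc H c R - area H * R ^ 2 - x| ≤
        sqrt (2 ^ p) * (C1 * (s99 a * (p : ℝ) ^ (1 / 4 : ℝ)) + C2 * 4 ^ a * (p * (2 : ℝ) ^ (-((p : ℝ) / 4000)))) +
        ‖∑ k ∈ lo (NN a p), ft (fun θ => R * H θ) k * ee (-((k.1 : ℝ) * c.1 + (k.2 : ℝ) * c.2)) - (x : ℂ)‖ := by
  have hM0 : 0 < M := by linarith
  obtain ⟨φ, hφ⟩ := exists_bump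
  obtain ⟨T0, hT0, hpoi⟩ := smcc_low99 hφ (τ := 1 / 2 + 1 / 4000) (e2 := 1 / 4000) (I := 4 * π * M) (by norm_num) (by norm_num)
    (by norm_num) (by positivity)
  obtain ⟨B0, hB0, hblk⟩ := blk_idf99 hM
  obtain ⟨p₁, hp₁⟩ : ∃ p₁ : ℕ, M * K * 8 ≤ 4 ^ p₁ := by
    obtain ⟨n, hn⟩ := pow_unbounded_of_one_lt (M * K * 8) (show (1 : ℝ) < 4 by norm_num)
    exact ⟨n, hn.le⟩
  obtain ⟨p₂, hp₂⟩ : ∃ p₂ : ℕ, M * 4 ≤ 2 ^ p₂ := by
    obtain ⟨n, hn⟩ := pow_unbounded_of_one_lt (M * 4) (show (1 : ℝ) < 2 by norm_num)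
    exact ⟨n, hn.le⟩
  obtain ⟨D1, hD1⟩ : ∃ D1 : ℝ, D1 = 4 * M ^ 2 * (32 * (M * K) + 8 * M) := ⟨_, rfl⟩
  have hD10 : 0 ≤ D1 := by
    rw [hD1]
    positivity
  refine ⟨B0 * C, D1 + T0 + 9 * (D1 + 16 * π * M) + 6 * B0, p₁ + p₂ + 1, by positivity, by positivity, by omega, ?_⟩
  intro p hp G H hG hH hG1 hG2 hG3 hd hS a ha R hR c x
  have hp1 : 1 ≤ p := by omega
  have hpr : (1 : ℝ) ≤ p := by exact_mod_cast hp1
  obtain ⟨X, hX⟩ : ∃ X : ℝ, X = 2 ^ p := ⟨_, rfl⟩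
  have hXr : X = (2 : ℝ) ^ (p : ℝ) := by rw [hX, Real.rpow_natCast]
  have hR' : X ≤ R ∧ R ≤ 2 * X := by
    rw [hX]
    refine ⟨hR.1, ?_⟩
    have := hR.2
    rw [pow_succ] at this
    linarith
  rw [← hX] at hS ⊢
  have hX2 : 2 ≤ X := by
    rw [hX]
    calc (2 : ℝ) = 2 ^ 1 := by norm_num
      _ ≤ 2 ^ p := pow_le_pow_right₀ (by norm_num) hp1
  have hX0 : 0 < X := by linarith
  have hR0 : 0 < R := by linarith
  have hMX : M * 4 ≤ X := by
    rw [hX]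
    exact hp₂.trans (pow_le_pow_right₀ (by norm_num) (by omega))
  have hX4 : X ^ 2 = 4 ^ p := by
    rw [hX, ← pow_mul, mul_comm p 2, pow_mul]
    norm_num
  -- the small quantities
  obtain ⟨κ, hκ⟩ : ∃ κ : ℝ, κ = M * (K / 4 ^ p) := ⟨_, rfl⟩
  have hκ0 : 0 ≤ κ := by
    rw [hκ]
    positivity
  have hκ1 : κ ≤ 1 / 8 := by
    rw [hκ, ← mul_div_assoc, div_le_iff₀ (by positivity)]
    have : (4 : ℝ) ^ p₁ ≤ 4 ^ p := pow_le_pow_right₀ (by norm_num) (by omega)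
    linarith only [hp₁, this]
  have hκX : κ * X ^ 2 = M * K := by
    rw [hκ, hX4]
    field_simp
  obtain ⟨δ, hδ⟩ : ∃ δ : ℝ, δ = X ^ (-(1 / 2 + 1 / 4000) : ℝ) := ⟨_, rfl⟩
  have hδ0 : 0 < δ := by
    rw [hδ]
    positivity
  have hδ1 : δ ≤ 1 := by
    rw [hδ]
    exact Real.rpow_le_one_of_one_le_of_nonpos (by linarith only [hM, hMX]) (by norm_num)
  obtain ⟨w, hw⟩ : ∃ w : ℝ, w = (2 : ℝ) ^ (-((p : ℝ) / 4000)) := ⟨_, rfl⟩
  have hw0 : 0 < w := by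
    rw [hw]
    positivity
  have hδX : δ * X = sqrt X * w := by
    rw [hδ, hw, Real.sqrt_eq_rpow]
    nth_rewrite 2 [← Real.rpow_one X]
    rw [← Real.rpow_add hX0, hXr, ← Real.rpow_mul (by norm_num), ← Real.rpow_mul (by norm_num), ← Real.rpow_add (by norm_num)]
    congr 1
    ring
  have hone : 1 ≤ sqrt X * w := by
    rw [hw, Real.sqrt_eq_rpow, hXr, ← Real.rpow_mul (by norm_num), ← Real.rpow_add (by norm_num)]
    refine Real.one_le_rpow (by norm_num) ?_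
    linarith only [hpr]
  -- the numbers
  obtain ⟨n1, hn1⟩ : ∃ n1 : ℕ, n1 = ⌈(1 / 2 + 1 / 2000 : ℝ) * p⌉₊ := ⟨_, rfl⟩
  have hn1a : (1 / 2 + 1 / 2000 : ℝ) * p ≤ n1 := by
    rw [hn1]
    exact Nat.le_ceil _
  have hn1b : (n1 : ℝ) < (1 / 2 + 1 / 2000 : ℝ) * p + 1 := by
    rw [hn1]
    exact Nat.ceil_lt_add_one (by positivity)
  have hn1c : ∀ n : ℕ, n < n1 → (n : ℝ) ≤ (1 / 2 + 1 / 1000) * p := by
    intro n hn
    rw [hn1, Nat.lt_ceil] at hn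
    linarith only [hpr, hn]
  have hn1d : (n1 : ℝ) ≤ 2 * p := by linarith only [hpr, hn1b]
  obtain ⟨n0, hn0⟩ : ∃ n0 : ℕ, n0 = Nat.log 2 p / 2 + a := ⟨_, rfl⟩
  have h01 : n0 ≤ n1 := by
    have h1 := n0_le99 hp1 ha
    have h2 : p ≤ 2 * n1 := by
      have : (p : ℝ) ≤ 2 * n1 := by linarith only [hpr, hn1a]
      exact_mod_cast this
    omega
  have hNN : NN a p = 2 ^ n0 := by
    rw [hn0]
    rfl
  have hN1 : 1 ≤ NN a p := by
    rw [hNN]
    exact Nat.one_le_two_pow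
  have hRn : X ^ ((1 / 2 + 1 / 4000 : ℝ) + 1 / 4000) ≤ 2 ^ n1 := by
    rw [hXr, ← Real.rpow_mul (by norm_num), ← Real.rpow_natCast 2 n1]
    refine Real.rpow_le_rpow_of_exponent_le (by norm_num) ?_
    linarith only [hn1a]
  have hRH : IsSupp (fun θ => R * H θ) := mul_supp_g99 hH hR0
  -- the area of G
  have haG : area G ≤ 4 * M ^ 2 := Pool.Agent.Helper22.LP.area_le_u hM0.le hG2
  have haG0 : 0 ≤ area G := ENNReal.toReal_nonneg
  obtain ⟨D, hD⟩ : ∃ D : ℝ, D = D1 * (sqrt X * w) := ⟨_, rfl⟩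
  -- the blocks
  obtain ⟨Bn, hBn⟩ : ∃ Bn : ℕ → ℝ, Bn = fun n => B0 * (X ^ (1 / 2 : ℝ) * ((2 ^ n : ℕ) : ℝ) ^ (-(3 / 2) : ℝ) * gg C n p + 1) := ⟨_, rfl⟩
  have hsumB : ∑ n ∈ Finset.Ico n0 n1, Bn n ≤ B0 * (sqrt X * (C * (s99 a * (p : ℝ) ^ (1 / 4 : ℝ)) + 4 * (p * w))) + B0 * (2 * p) := by
    have e1 : ∀ n : ℕ, Bn n = B0 * (sqrt X * ((2 : ℝ) ^ (-(3 / 2) * n : ℝ) * gg C n p)) + B0 := by
      intro n
      have h2 : ((2 ^ n : ℕ) : ℝ) ^ (-(3 / 2) : ℝ) = (2 : ℝ) ^ (-(3 / 2) * n : ℝ) := by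
        rw [Nat.cast_pow, Nat.cast_ofNat, ← Real.rpow_natCast, ← Real.rpow_mul (by norm_num)]
        congr 1
        ring
      rw [hBn]
      simp only
      rw [h2, ← Real.sqrt_eq_rpow]
      ring
    rw [Finset.sum_congr rfl fun n _ => e1 n, Finset.sum_add_distrib, ← Finset.mul_sum, ← Finset.mul_sum, Finset.sum_const,
      Nat.card_Ico, nsmul_eq_mul]
    have h1 := sum_gg99 hC hp1 a n1 hn1d
    rw [← hw, ← hn0] at h1
    have h2 := mul_le_mul_of_nonneg_left (mul_le_mul_of_nonneg_left h1 (Real.sqrt_nonneg X)) hB0.le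
    have h3 : ((n1 - n0 : ℕ) : ℝ) ≤ 2 * p := by
      have : ((n1 - n0 : ℕ) : ℝ) ≤ n1 := by exact_mod_cast Nat.sub_le _ _
      linarith only [hpr, hn1b, this]
    have h4 := mul_le_mul_of_nonneg_right h3 hB0.le
    linarith only [h2, h4]
  -- one side
  have hside : ∀ r : ℝ, X / 2 ≤ r → r ≤ 4 * X → ((∀ θ, r * G θ ≤ R * H θ) ∨ (∀ θ, R * H θ ≤ r * G θ)) →
      |r ^ 2 * area G - R ^ 2 * area H| ≤ D →
      |smcc φ δ (fun θ => r * G θ) c - R ^ 2 * area H - x| ≤ T0 + ∑ n ∈ Finset.Ico n0 n1, Bn n + D +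
        9 * ((NN a p : ℕ) : ℝ) ^ 2 * (D + 16 * π * M * (δ * X)) +
        ‖∑ k ∈ lo (NN a p), ft (fun θ => R * H θ) k * ee (-((k.1 : ℝ) * c.1 + (k.2 : ℝ) * c.2)) - (x : ℂ)‖ := by
    intro r hr1 hr2 hcmp hDr
    have hr0 : 0 < r := by linarith only [hM, hMX, hr1]
    have hrG := mul_supp_g99 hG hr0
    have hIr : ∫ t in (0 : ℝ)..(2 * π), rho (fun θ => r * G θ) t ≤ 8 * π * M * X := by
      simp only [rho_mul_g99]
      rw [intervalIntegral.integral_const_mul]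
      have h1 : ∫ t in (0 : ℝ)..(2 * π), rho G t ≤ ∫ _t in (0 : ℝ)..(2 * π), M := by
        refine intervalIntegral.integral_mono_on (by positivity) ?_ (continuous_const.intervalIntegrable _ _) fun t _ => hG3 t
        apply Continuous.intervalIntegrable
        exact Pool.Agent.Helper22.OV.o3_rho_cont hG.smooth
      rw [intervalIntegral.integral_const, smul_eq_mul, sub_zero] at h1
      have h2 : 0 ≤ ∫ t in (0 : ℝ)..(2 * π), rho G t :=
        intervalIntegral.integral_nonneg (by positivity) fun t _ => (hG.rho_pos t).le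
      calc r * ∫ t in (0 : ℝ)..(2 * π), rho G t ≤ 4 * X * (2 * π * M) := mul_le_mul hr2 h1 h2 (by positivity)
        _ = 8 * π * M * X := by ring
    have hvol : area (fun θ => r * G θ) = r ^ 2 * area G := area_scale hG hr0
    have hvolR : area (fun θ => R * H θ) = R ^ 2 * area H := area_scale hH hR0
    have h1 := hpoi (fun θ => r * G θ) hrG X hX2 (hIr.trans (le_of_eq (by ring))) n0 n1 h01 hRn Bn (fun n hn0' hn1' c' => by
      rw [hBn]
      simp only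
      refine hblk G hG hG3 (2 ^ n) Nat.one_le_two_pow X r (by linarith only [hM, hMX]) ⟨hr1, hr2⟩ (gg C n p) ?_ c'
      intro α hα c'' i hi
      exact hS n (hn1c n hn1') α r c'' i hα (by linarith only [hM, hMX, hr1]) (by linarith only [hM, hMX, hr2]) hi) c
    rw [← hδ, ← hNN] at h1
    have h2 := low_cmp99 hrG hRH hcmp.symm.symm hφ hδ0 hN1 c
    rw [hvol] at h1
    rw [hvol, hvolR] at h2
    obtain ⟨S1, hS1⟩ : ∃ S1 : ℂ, S1 = ∑ k ∈ lo (NN a p), ft (fun θ => r * G θ) k * fhat φ (δ * k.1) (δ * k.2) * ee (-((k.1 : ℝ) * c.1 + (k.2 : ℝ) * c.2)) := ⟨_, rfl⟩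
    obtain ⟨S2, hS2⟩ : ∃ S2 : ℂ, S2 = ∑ k ∈ lo (NN a p), ft (fun θ => R * H θ) k * ee (-((k.1 : ℝ) * c.1 + (k.2 : ℝ) * c.2)) := ⟨_, rfl⟩
    rw [← hS1] at h1
    rw [← hS1, ← hS2] at h2
    rw [← hS2]
    have h3 : |r ^ 2 * area G - R ^ 2 * area H| + 2 * δ * (∫ t in (0 : ℝ)..(2 * π), rho (fun θ => r * G θ) t) ≤ D + 16 * π * M * (δ * X) := by
      have := mul_le_mul_of_nonneg_left hIr (show 0 ≤ 2 * δ by positivity)
      linarith only [hDr, this]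
    have h4 := mul_le_mul_of_nonneg_left h3 (show 0 ≤ 9 * ((NN a p : ℕ) : ℝ) ^ 2 by positivity)
    obtain ⟨y, hy⟩ : ∃ y : ℝ, y = smcc φ δ (fun θ => r * G θ) c := ⟨_, rfl⟩
    rw [← hy] at h1 ⊢
    have h5 : ((y - R ^ 2 * area H - x : ℝ) : ℂ) = (((y : ℝ) : ℂ) - ((r ^ 2 * area G : ℝ) : ℂ) - S1) +
        ((r ^ 2 * area G - R ^ 2 * area H : ℝ) : ℂ) + (S1 - S2) + (S2 - (x : ℂ)) := by
      push_cast
      ring
    have h6 : |y - R ^ 2 * area H - x| = ‖((y - R ^ 2 * area H - x : ℝ) : ℂ)‖ := by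
      rw [Complex.norm_real, Real.norm_eq_abs]
    have h7 : ‖((r ^ 2 * area G - R ^ 2 * area H : ℝ) : ℂ)‖ ≤ D := by
      rw [Complex.norm_real, Real.norm_eq_abs]
      exact hDr
    rw [h6, h5]
    have h8 := norm_add₄_le (a := (((y : ℝ) : ℂ) - ((r ^ 2 * area G : ℝ) : ℂ) - S1)) (b := ((r ^ 2 * area G - R ^ 2 * area H : ℝ) : ℂ))
      (c := S1 - S2) (d := S2 - (x : ℂ))
    linarith only [h2, h4, h1, h7, h8]
  -- comparison of the ovals
  have hGδ : ∀ θ, δ ≤ M * δ * G θ := by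
    intro θ
    have h1 := mul_le_mul_of_nonneg_left (hG1 θ) (show 0 ≤ M * δ by positivity)
    have h2 : M * δ * (1 / M) = δ := by field_simp
    linarith only [h1, h2]
  have hGκ : ∀ θ, K / 4 ^ p ≤ κ * G θ := by
    intro θ
    have h1 := mul_le_mul_of_nonneg_left (hG1 θ) hκ0
    have h2 : κ * (1 / M) = K / 4 ^ p := by
      rw [hκ]
      field_simp
    linarith only [h1, h2]
  have hup : ∀ θ, H θ ≤ (1 + κ) * G θ := by
    intro θ
    have h1 := (abs_le.1 (hd θ)).1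
    have h2 := hGκ θ
    linarith only [h1, h2]
  have hlo : ∀ θ, (1 - κ) * G θ ≤ H θ := by
    intro θ
    have h1 := (abs_le.1 (hd θ)).2
    have h2 := hGκ θ
    linarith only [h1, h2]
  have hMδ : M * δ ≤ X / 4 := by
    have := mul_le_mul_of_nonneg_left hδ1 hM0.le
    linarith only [hMX, this]
  have hMδ0 : 0 < M * δ := by positivity
  have hκR : κ * R ≤ X / 4 := by
    have := mul_le_mul hκ1 hR'.2 hR0.le (by norm_num)
    linarith only [this]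
  have hκR0 : 0 ≤ κ * R := mul_nonneg hκ0 hR0.le
  have hκR2 : κ * R ≤ 2 * (κ * X) := by
    have := mul_le_mul_of_nonneg_left hR'.2 hκ0
    linarith only [this]
  have harl : (1 - κ) ^ 2 * area G ≤ area H := by
    rw [← area_scale hG (show 0 < 1 - κ by linarith only [hκ1])]
    exact area_mono99 hH hlo
  have haru : area H ≤ (1 + κ) ^ 2 * area G := by
    have h1 : 0 < 1 + κ := by linarith only [hκ0]
    rw [← area_scale hG h1]
    exact area_mono99 (mul_supp_g99 hG h1) hup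
  have hR2 : 0 ≤ R ^ 2 := sq_nonneg R
  have harl' := mul_le_mul_of_nonneg_left harl hR2
  have haru' := mul_le_mul_of_nonneg_left haru hR2
  have hDD : (4 * (κ * X) + M * δ) * (8 * X) * area G ≤ D := by
    have e : (4 * (κ * X) + M * δ) * (8 * X) = 32 * (κ * X ^ 2) + 8 * M * (δ * X) := by ring
    have h0 : 0 ≤ 32 * (κ * X ^ 2) + 8 * M * (δ * X) := by positivity
    rw [e]
    refine (mul_le_mul_of_nonneg_left haG h0).trans ?_
    rw [hκX, hδX, hD, hD1]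
    have h1 : 32 * (M * K) ≤ 32 * (M * K) * (sqrt X * w) := le_mul_of_one_le_right (by positivity) hone
    have h2 : 32 * (M * K) + 8 * M * (sqrt X * w) ≤ (32 * (M * K) + 8 * M) * (sqrt X * w) := by linarith only [h1]
    have h3 := mul_le_mul_of_nonneg_right h2 (show 0 ≤ 4 * M ^ 2 by positivity)
    refine h3.trans (le_of_eq ?_)
    ring
  -- the upper bound
  obtain ⟨E, hE⟩ : ∃ E : ℝ, E = T0 + ∑ n ∈ Finset.Ico n0 n1, Bn n + D + 9 * ((NN a p : ℕ) : ℝ) ^ 2 * (D + 16 * π * M * (δ * X)) +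
        ‖∑ k ∈ lo (NN a p), ft (fun θ => R * H θ) k * ee (-((k.1 : ℝ) * c.1 + (k.2 : ℝ) * c.2)) - (x : ℂ)‖ := ⟨_, rfl⟩
  rw [← hE] at hside
  have hcnt : cntc H c R =
      (Nat.card {k : ℤ × ℤ // ((k.1 : ℝ) - c.1, (k.2 : ℝ) - c.2) ∈ dom (fun θ => R * H θ)} : ℝ) := rfl
  have hprod : ∀ u v : ℝ, 0 ≤ u → u ≤ 4 * (κ * X) + M * δ → 0 ≤ v → v ≤ 8 * X → u * v * area G ≤ D := by
    intro u v hu0 hu hv0 hv
    refine le_trans ?_ hDD
    exact mul_le_mul_of_nonneg_right (mul_le_mul hu hv hv0 (by positivity)) haG0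
  have hupper : cntc H c R - R ^ 2 * area H - x ≤ E := by
    obtain ⟨r, hr⟩ : ∃ r : ℝ, r = R * (1 + κ) + M * δ := ⟨_, rfl⟩
    have hr1 : X / 2 ≤ r := by
      rw [hr]
      linarith only [hM, hMX, hMδ0, hκR0, hR'.1]
    have hr2 : r ≤ 4 * X := by
      rw [hr]
      linarith only [hM, hMX, hMδ, hκR, hR'.2]
    have hcmp : ∀ θ, R * H θ + δ ≤ r * G θ := by
      intro θ
      have h1 := mul_le_mul_of_nonneg_left (hup θ) hR0.le
      have h2 := hGδ θ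
      rw [hr]
      linarith only [h1, h2]
    have hDr : |r ^ 2 * area G - R ^ 2 * area H| ≤ D := by
      have h1 := hprod (r - (1 - κ) * R) (r + (1 - κ) * R) (by rw [hr]; linarith only [hMδ0, hκR0]) (by rw [hr]; linarith only [hκR2]) (by rw [hr]; linarith only [hM, hMX, hMδ0, hR'.1])
        (by rw [hr]; linarith only [hM, hMX, hMδ, hR'.2])
      have h2 : 0 ≤ (r - (1 + κ) * R) * (r + (1 + κ) * R) * area G := by
        have h3 : 0 ≤ r - (1 + κ) * R := by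
          rw [hr]
          linarith only [hMδ0]
        have h4 : 0 ≤ r + (1 + κ) * R := by
          rw [hr]
          linarith only [hM, hMX, hMδ0, hκR0, hR'.1]
        (clear * - h3 h4 haG0; positivity)
      have hD0 : 0 ≤ D := by
        rw [hD]
        positivity
      rw [abs_le]
      constructor
      · linarith only [harl', haru', h1, h2]
      · linarith only [harl', h1]
    have h1 := hside r hr1 hr2 (Or.inr fun θ => by linarith only [hδ0, hcmp θ]) hDr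
    have h2 : cntc H c R ≤ smcc φ δ (fun θ => r * G θ) c := by
      rw [hcnt]
      exact le_smcc hRH (mul_supp_g99 hG (by linarith only [hM, hMX, hMδ0, hκR0, hr, hR'])) hφ hδ0 hcmp c
    have h3 := (abs_le.1 h1).2
    linarith only [h2, h3]
  have hlower : -E ≤ cntc H c R - R ^ 2 * area H - x := by
    obtain ⟨r, hr⟩ : ∃ r : ℝ, r = R * (1 - κ) - M * δ := ⟨_, rfl⟩
    have hr1 : X / 2 ≤ r := by
      rw [hr]
      linarith only [hMδ, hκR, hR'.1]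
    have hr2 : r ≤ 4 * X := by
      rw [hr]
      linarith only [hM, hMX, hMδ0, hκR0, hR'.2]
    have hcmp : ∀ θ, r * G θ + δ ≤ R * H θ := by
      intro θ
      have h1 := mul_le_mul_of_nonneg_left (hlo θ) hR0.le
      have h2 := hGδ θ
      rw [hr]
      linarith only [h1, h2]
    have hDr : |r ^ 2 * area G - R ^ 2 * area H| ≤ D := by
      have h1 := hprod ((1 + κ) * R - r) ((1 + κ) * R + r) (by rw [hr]; linarith only [hMδ0, hκR0]) (by rw [hr]; linarith only [hκR2]) (by rw [hr]; linarith only [hM, hMX, hMδ, hR'.1])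
        (by rw [hr]; linarith only [hM, hMX, hMδ0, hR'.2])
      have h2 : 0 ≤ ((1 - κ) * R - r) * ((1 - κ) * R + r) * area G := by
        have h3 : 0 ≤ (1 - κ) * R - r := by
          rw [hr]
          linarith only [hMδ0]
        have h4 : 0 ≤ (1 - κ) * R + r := by
          rw [hr]
          linarith only [hM, hMX, hMδ, hκR, hR'.1]
        (clear * - h3 h4 haG0; positivity)
      have hD0 : 0 ≤ D := by
        rw [hD]
        positivity
      rw [abs_le]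
      constructor
      · linarith only [haru', h1]
      · linarith only [harl', haru', h1, h2]
    have h1 := hside r hr1 hr2 (Or.inl fun θ => by linarith only [hδ0, hcmp θ]) hDr
    have h2 : smcc φ δ (fun θ => r * G θ) c ≤ cntc H c R := by
      rw [hcnt]
      exact smcc_le (mul_supp_g99 hG (by linarith only [hM, hMX, hMδ, hκR, hr, hR'])) hRH hφ hδ0 hcmp c
    have h3 := (abs_le.1 h1).1
    linarith only [h2, h3]
  have hmain : |cntc H c R - area H * R ^ 2 - x| ≤ E := by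
    rw [abs_le]
    constructor
    · linarith only [hlower]
    · linarith only [hupper]
  refine hmain.trans ?_
  rw [hE, ← hw]
  refine add_le_add ?_ le_rfl
  -- the numbers
  have hsX : 0 < sqrt X := Real.sqrt_pos.2 hX0
  obtain ⟨Q, hQ⟩ : ∃ Q : ℝ, Q = sqrt X * (p * w) := ⟨_, rfl⟩
  have hQ1 : sqrt X * w ≤ Q := by
    rw [hQ]
    have : w ≤ p * w := le_mul_of_one_le_left hw0.le hpr
    exact mul_le_mul_of_nonneg_left this hsX.le
  have hpQ : (p : ℝ) ≤ Q := by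
    have h1 := mul_le_mul_of_nonneg_left hone (show (0 : ℝ) ≤ p by positivity)
    rw [hQ]
    linarith only [h1]
  have hQ0 : 0 ≤ Q := by linarith only [hone, hQ1]
  have h4a : (1 : ℝ) ≤ 4 ^ a := one_le_pow₀ (by norm_num)
  have hNsq := NN_sq99 hp1 a
  have t1 : T0 ≤ T0 * Q := le_mul_of_one_le_right hT0 (hone.trans hQ1)
  have t2 : D ≤ D1 * Q := by
    rw [hD]
    exact mul_le_mul_of_nonneg_left hQ1 hD10
  have t3 : 9 * ((NN a p : ℕ) : ℝ) ^ 2 * (D + 16 * π * M * (δ * X)) ≤ 9 * (4 ^ a * ((D1 + 16 * π * M) * Q)) := by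
    have e1 : D + 16 * π * M * (δ * X) = (D1 + 16 * π * M) * (sqrt X * w) := by
      rw [hD, hδX]
      ring
    rw [e1]
    have h0 : 0 ≤ (D1 + 16 * π * M) * (sqrt X * w) := by positivity
    have h1 := mul_le_mul_of_nonneg_right hNsq h0
    have h2 : 4 ^ a * (p : ℝ) * ((D1 + 16 * π * M) * (sqrt X * w)) = 4 ^ a * ((D1 + 16 * π * M) * Q) := by
      rw [hQ]
      ring
    linarith only [h1, h2]
  have t4 : B0 * (sqrt X * (C * (s99 a * (p : ℝ) ^ (1 / 4 : ℝ)) + 4 * (p * w))) + B0 * (2 * p) ≤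
      sqrt X * (B0 * C * (s99 a * (p : ℝ) ^ (1 / 4 : ℝ))) + 6 * B0 * Q := by
    have h1 := mul_le_mul_of_nonneg_left hpQ hB0.le
    have h2 : B0 * (sqrt X * (C * (s99 a * (p : ℝ) ^ (1 / 4 : ℝ)) + 4 * (p * w))) =
        sqrt X * (B0 * C * (s99 a * (p : ℝ) ^ (1 / 4 : ℝ))) + 4 * (B0 * Q) := by
      rw [hQ]
      ring
    linarith only [h1, h2]
  have t5 : (D1 + T0 + 6 * B0) * Q ≤ (D1 + T0 + 6 * B0) * (4 ^ a * Q) :=
    mul_le_mul_of_nonneg_left (le_mul_of_one_le_left hQ0 h4a) (by positivity)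
  have e6 : sqrt X * (B0 * C * (s99 a * (p : ℝ) ^ (1 / 4 : ℝ)) + (D1 + T0 + 9 * (D1 + 16 * π * M) + 6 * B0) * 4 ^ a * (p * w)) =
      sqrt X * (B0 * C * (s99 a * (p : ℝ) ^ (1 / 4 : ℝ))) + (D1 + T0 + 6 * B0) * (4 ^ a * Q) + 9 * (4 ^ a * ((D1 + 16 * π * M) * Q)) := by
    rw [hQ]
    ring
  rw [e6]
  linarith only [hsumB, t1, t2, t3, t4, t5]

end Pool.Agent.Helper99.EX
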